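import Mathlib
import Pool.Agent.H78.PB.Stm

/-!
Project PB, part B: an improved Paley (Pitt) inequality for `2 < p < 4` by complex interpolation with
an exact estimate on the `L ^ 4` edge; the doubling step; numerical constants.
Here `p = 4 / (2 - θ)`, `0 < θ < 1`.
-/

set_option autoImplicit false

open MeasureTheory ENNReal Filter Topology Complex
open scoped ComplexConjugate ContDiff

namespace Pool.Agent.H78.PB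

open Pool.Agent.N892.BW

/-- harmonic measure of the line `Re z = 0` in the strip, seen from `θ` -/
noncomputable def p0 (θ y : ℝ) : ℝ :=
  Real.sin (Real.pi * θ) / (2 * (Real.cosh (Real.pi * y) - Real.cos (Real.pi * θ)))

/-- harmonic measure of the line `Re z = 1` in the strip, seen from `θ` -/
noncomputable def p1 (θ y : ℝ) : ℝ :=
  Real.sin (Real.pi * θ) / (2 * (Real.cosh (Real.pi * y) + Real.cos (Real.pi * θ)))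

/-- KRN: integrability and masses of the kernels -/
def P_KRN : Prop := ∀ θ : ℝ, 0 < θ → θ < 1 →
  (∀ k : ℕ, Integrable (fun y : ℝ => p0 θ y * (1 + |y|) ^ k) ∧
    Integrable (fun y : ℝ => p1 θ y * (1 + |y|) ^ k)) ∧
  (∫ y, p0 θ y) = 1 - θ ∧ (∫ y, p1 θ y) = θ

/-- POI: the formula of Poisson for the strip -/
def P_POI : Prop := ∀ θ : ℝ, 0 < θ → θ < 1 → ∀ (h : ℂ → ℂ) (k : ℕ) (C : ℝ),
  DiffContOnCl ℂ h {z : ℂ | 0 < z.re ∧ z.re < 1} →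
  (∀ z : ℂ, 0 ≤ z.re → z.re ≤ 1 → ‖h z‖ ≤ C * (1 + |z.im|) ^ k) →
  h (θ : ℂ) = (∫ y : ℝ, (p0 θ y : ℂ) * h ((y : ℂ) * I)) + ∫ y : ℝ, (p1 θ y : ℂ) * h (1 + (y : ℂ) * I)

/-- MOM: moments and the Fourier transform of the kernels -/
def P_MOM : Prop := ∀ θ : ℝ, 0 < θ → θ < 1 →
  (∫ y, p0 θ y * y ^ 2) = (1 - θ) * (2 * θ - θ ^ 2) / 3 ∧
  (∫ y, p1 θ y * y ^ 2) = θ * (1 - θ ^ 2) / 3 ∧
  (∀ t : ℝ, t ≠ 0 → (∫ y, p1 θ y * Real.cos (t * y)) = Real.sinh (θ * t) / Real.sinh t) ∧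
  (∫ y, p1 θ y / (1 + y ^ 2)) ≤ θ * (20 - 7 * θ) / ((2 - θ) * (12 + 2 * θ - θ ^ 2))

/-- NUP: an inequality for hyperbolic functions -/
def P_NUP : Prop := ∀ θ t : ℝ, 0 < θ → θ < 1 → 0 < t →
  0 ≤ θ ^ 2 * (4 + θ ^ 2) * Real.sinh (θ * t) * Real.sinh t ^ 4 +
    (16 + 12 * θ ^ 2) * Real.sinh (θ * t) * Real.sinh t ^ 2 + 24 * Real.sinh (θ * t) -
    4 * θ ^ 3 * Real.cosh (θ * t) * Real.cosh t * Real.sinh t ^ 3 -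
    24 * θ * Real.cosh (θ * t) * Real.cosh t * Real.sinh t

/-- NU: a positive definite function is nonnegative -/
def P_NU : Prop := ∀ θ : ℝ, 0 < θ → θ < 1 → ∀ t : ℝ,
  0 ≤ ∫ y, p1 θ y * (1 + y ^ 2) ^ 2 * Real.cos (t * y)

/-- the Fourier transform of `(1 + y²) p1` -/
noncomputable def rr (θ t : ℝ) : ℝ := ∫ y, p1 θ y * (1 + y ^ 2) * Real.cos (t * y)

/-- its derivative -/
noncomputable def rd (θ t : ℝ) : ℝ := -∫ y, p1 θ y * (1 + y ^ 2) * (y * Real.sin (t * y))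

/-- RR: the key convexity inequality -/
def P_RR : Prop := ∀ θ : ℝ, 0 < θ → θ < 1 →
  (∀ s t : ℝ, rr θ (t + s) ≤ rr θ s * Real.cosh t + rd θ s * Real.sinh t) ∧
  (∀ s : ℝ, 0 ≤ rr θ s + rd θ s) ∧ (∀ s : ℝ, 0 ≤ rr θ s - rd θ s)

/-- a complex Riesz composition at the point 1 -/
noncomputable def RI (y : ℝ) : ℂ :=
  ∫ t : ℂ, (((‖t‖ * ‖1 - t‖ : ℝ)) : ℂ) ^ (-(3 / 2 : ℂ) - ((y / 2 : ℝ) : ℂ) * I)

/-- `Γ(1/4) / Γ(3/4)` -/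
noncomputable def c4 : ℝ := Real.Gamma (1 / 4) / Real.Gamma (3 / 4)

/-- CRZ: the bound for the complex Riesz composition -/
def P_CRZ : Prop := ∀ y : ℝ, ‖RI y‖ ≤ Real.pi * c4 ^ 2 * (1 + y ^ 2 / 9) / (1 + y ^ 2)

/-- PL4: Plancherel for the square of a Fourier integral -/
def P_PL4 : Prop := ∀ F : ℂ → ℂ, Nice F →
  ∫⁻ x, ‖hat F x‖ₑ ^ 4 ≤ ENNReal.ofReal ((2 * Real.pi) ^ 2) * ∫⁻ v, ‖∫ u, F u * F (v - u)‖ₑ ^ 2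

/-- the analytic family -/
noncomputable def FZ (ρ : ℂ → ℝ) (σ : ℂ → ℂ) (z u : ℂ) : ℂ :=
  open Classical in
  if ρ u = 0 ∨ u = 0 then 0 else
    ((ρ u : ℝ) : ℂ) ^ (1 / 2 - z / 4) * ((‖u‖ : ℝ) : ℂ) ^ (-z) * σ u

/-- admissible data -/
def Adm (ρ : ℂ → ℝ) (σ : ℂ → ℂ) : Prop := Measurable ρ ∧ Measurable σ ∧ (∀ u, 0 ≤ ρ u) ∧
  (∃ M : ℝ, ∀ u, ρ u ≤ M) ∧ (∃ δ R : ℝ, 0 < δ ∧ ∀ u, ρ u ≠ 0 → δ ≤ ‖u‖ ∧ ‖u‖ ≤ R) ∧ ∀ u, ‖σ u‖ ≤ 1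

/-- the double integral of KEA -/
noncomputable def JD (θ : ℝ) (u : ℂ) : ℝ≥0∞ := ∫⁻ v : ℂ, ∫⁻ s : ℂ, ENNReal.ofReal
  (‖u‖ ^ (1 / 2 : ℝ) * ‖v - u‖ ^ (-(3 / 2) : ℝ) * (‖s‖ * ‖v - s‖) ^ (-(3 / 2) : ℝ) *
    (rr θ (Real.log ((‖u‖ * ‖v - u‖) / (‖s‖ * ‖v - s‖)) / 2) +
      rd θ (Real.log ((‖u‖ * ‖v - u‖) / (‖s‖ * ‖v - s‖)) / 2)))

/-- KEA: the `L ^ 4` edge, first part -/
def P_KEA : Prop := ∀ θ : ℝ, 0 < θ → θ < 1 → ∀ (ρ : ℂ → ℝ) (σ : ℂ → ℂ), Adm ρ σ →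
  ∫⁻ y : ℝ, ENNReal.ofReal ((1 + y ^ 2) * p1 θ y) * ∫⁻ x, ‖hat (FZ ρ σ (1 + (y : ℂ) * I)) x‖ₑ ^ 4 ≤
    ENNReal.ofReal ((2 * Real.pi) ^ 2) * ∫⁻ u, ENNReal.ofReal (ρ u) * JD θ u

/-- KEB: the `L ^ 4` edge, second part -/
def P_KEB : Prop := ∀ θ : ℝ, 0 < θ → θ < 1 → ∀ u : ℂ, u ≠ 0 →
  JD θ u ≤ ENNReal.ofReal (∫ y, (1 + y ^ 2) * p1 θ y * ‖RI y‖ ^ 2)

/-- constants -/
noncomputable def aa (θ : ℝ) : ℝ := 4 + (2 * θ - θ ^ 2) / 3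

/-- constants -/
noncomputable def bb (θ : ℝ) : ℝ :=
  c4 ^ 4 * (17 + (1 - θ ^ 2) / 3 + 64 * ((20 - 7 * θ) / ((2 - θ) * (12 + 2 * θ - θ ^ 2)))) / 81

/-- the constant of the improved inequality -/
noncomputable def KK (θ : ℝ) : ℝ := (aa θ ^ (1 - θ) * bb θ ^ θ / (2 - θ) ^ 2) ^ (1 / 4 : ℝ)

/-- PIT: the improved inequality -/
def P_PIT : Prop := ∀ θ : ℝ, 0 < θ → θ < 1 → Pit (2 / (2 - θ)) (KK θ)

/-- DBL: doubling of the exponent -/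
def P_DBL : Prop := ∀ m K : ℝ, 1 < m → 0 < K → Pit m K →
  Pit (2 * m) (Real.sqrt (K * RB (1 / (2 * m)) (1 / (2 * m)) / Real.pi))

/-- NMK: numerical values at the nodes -/
def P_NMK : Prop := c4 ≤ 29588 / 10000 → KK (2 / 11) ≤ 1199 / 1000 ∧ KK (6 / 13) ≤ 15945 / 10000 ∧
  KK (10 / 13) ≤ 2233 / 1000 ∧ KK (18 / 49) ≤ 1447 / 1000

/-- NMG: numerical values of Gamma quotients -/
def P_NMG : Prop := c4 ≤ 29588 / 10000 ∧ Real.Gamma (1 / 6) / Real.Gamma (5 / 6) ≤ 495 / 100 ∧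
  RB (20 / 49) (20 / 49) / Real.pi ≤ 1035 / 100

/-- NOD: the chords between the nodes -/
def P_NOD : Prop := ∀ p : ℝ, 2 < p → p ≤ 6 → ∃ m₀ k₀ m₁ k₁ t : ℝ,
  ((m₀, k₀), (m₁, k₁)) ∈ ([((1, 1), (11 / 10, 1199 / 1000)),
    ((11 / 10, 1199 / 1000), (13 / 10, 15945 / 10000)), ((13 / 10, 15945 / 10000), (13 / 8, 2233 / 1000)),
    ((13 / 8, 2233 / 1000), (2, 2965 / 1000)), ((2, 2965 / 1000), (49 / 20, 387 / 100)),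
    ((49 / 20, 387 / 100), (3, 495 / 100))] : List ((ℝ × ℝ) × (ℝ × ℝ))) ∧
  0 ≤ t ∧ t ≤ 1 ∧ 1 / p = (1 - t) / (2 * m₀) + t / (2 * m₁) ∧ k₀ ^ (1 - t) * k₁ ^ t < p - 1

end Pool.Agent.H78.PB
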