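import Mathlib
import Pool.Agent.H78.PB.Stm2

/-!
Project PB, part C: comparison with the conjectured constants `(1/q)_n / (1/p)_n` (`MP_dd244f_an`),
factor `1.005` for `2 ≤ p ≤ 6`; and a locally uniform version of the theorem for large `p`.
-/

set_option autoImplicit false

open MeasureTheory ENNReal Filter Topology

namespace Pool.Agent.H78.PB

open Pool.Agent.N892.BW

/-- GLB: a lower bound for quotients of Gamma values -/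
def C_GLB : Prop := ∀ (n : ℕ) (s : ℝ), 1 ≤ n → 0 < s → s ≤ 1 / 2 →
  Qn n s * (n : ℝ) ^ (-(1 - 2 * s)) * Real.exp (-((1 - 2 * s) / (24 * (n : ℝ) ^ 2))) ≤ Gs s

/-- CNM: the constants of the improved inequality against the conjectured ones, `s = (2 - θ) / 4` -/
def C_CNM : Prop := c4 ≤ 29588 / 10000 →
  KK (1 / 5) ≤ 10035 / 10000 * Gs (9 / 20) ∧ KK (1 / 3) ≤ 10040 / 10000 * Gs (5 / 12) ∧
  KK (3 / 7) ≤ 10044 / 10000 * Gs (11 / 28) ∧ KK (1 / 2) ≤ 10045 / 10000 * Gs (3 / 8) ∧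
  KK (4 / 7) ≤ 10046 / 10000 * Gs (5 / 14) ∧ KK (5 / 8) ≤ 10046 / 10000 * Gs (11 / 32) ∧
  KK (2 / 3) ≤ 10043 / 10000 * Gs (1 / 3) ∧ KK (3 / 4) ≤ 10039 / 10000 * Gs (5 / 16) ∧
  KK (6 / 7) ≤ 10027 / 10000 * Gs (2 / 7)

/-- CDB: doubling, in terms of the conjectured constants -/
def C_CDB : Prop := ∀ s r : ℝ, 1 / 4 ≤ s → s < 1 / 2 → 1 ≤ r → Pit (1 / (2 * s)) (r * Gs s) →
  Pit (1 / s) (Real.sqrt r * Gs (s / 2))

/-- the pairs `(s, r)`: `Pit` holds at `m = 1 / (2 s)` with constant `r * Gs s` -/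
noncomputable def nodesC : List (ℝ × ℝ) := [(1 / 2, 1), (9 / 20, 10035 / 10000), (5 / 12, 10040 / 10000),
  (11 / 28, 10044 / 10000), (3 / 8, 10045 / 10000), (5 / 14, 10046 / 10000), (11 / 32, 10046 / 10000),
  (1 / 3, 10043 / 10000), (5 / 16, 10039 / 10000), (2 / 7, 10027 / 10000), (1 / 4, 1),
  (9 / 40, 10018 / 10000), (11 / 56, 10022 / 10000), (5 / 28, 10023 / 10000), (1 / 6, 1)]

/-- CHO: the factor of the interpolation between neighbouring nodes is at most `1.00499`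
(`max (r₀, r₁) exp (log (s₀ / s₁) ^ 2 / 8)`) -/
def C_CHO : Prop := ∀ s : ℝ, 1 / 6 ≤ s → s ≤ 1 / 2 → ∃ (i : ℕ) (s₀ r₀ s₁ r₁ t : ℝ),
  nodesC[i]? = some (s₀, r₀) ∧ nodesC[i + 1]? = some (s₁, r₁) ∧ 0 ≤ t ∧ t ≤ 1 ∧
  s = (1 - t) * s₀ + t * s₁ ∧ s₁ < s₀ ∧
  r₀ ^ (1 - t) * r₁ ^ t * Real.exp (Real.log (s₀ / s₁) ^ 2 / 8) ≤ 100499 / 100000

/-- CFI: factor `1.005` for `2 ≤ p ≤ 6`, uniformly -/
def C_CFI : Prop := ∃ n₀ : ℕ, ∀ n : ℕ, n₀ ≤ n → ∀ p : ℝ, 2 ≤ p → p ≤ 6 → ∀ f : SchwartzMap ℂ ℂ,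
  eLpNorm (TS n f) (ENNReal.ofReal p) volume ≤
    ENNReal.ofReal (1005 / 1000 * ∏ j ∈ Finset.range n, ((1 - 1 / p + j) / (1 / p + j))) *
      eLpNorm (fun z : ℂ => f z) (ENNReal.ofReal p) volume

/-- LUN: the inequality `n ^ (1 - 2/p) (p - 1)`, locally uniformly in `p ≥ 6` -/
def C_LUN : Prop := ∀ P : ℝ, ∃ n₀ : ℕ, ∀ n : ℕ, n₀ ≤ n → ∀ p : ℝ, 6 ≤ p → p ≤ P → ∀ f : SchwartzMap ℂ ℂ,
  eLpNorm (TS n f) (ENNReal.ofReal p) volume ≤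
    ENNReal.ofReal ((n : ℝ) ^ (1 - 2 / p) * (p - 1)) *
      eLpNorm (fun z : ℂ => f z) (ENNReal.ofReal p) volume

end Pool.Agent.H78.PB
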