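import Mathlib
import Pool.Agent.H78.PB.Stm
import Pool.Agent.H78.PB.Stm2

/-! Project PB, final assembly: interpolation between the nodes. -/

set_option autoImplicit false

open MeasureTheory ENNReal Filter Topology Complex

namespace Pool.Agent.H78.PB.FIN

open Pool.Agent.N892.BW

theorem pit_mono {m G G' : ℝ} (hm : 0 < m) (hG : 0 ≤ G) (h : G ≤ G') (hp : Pit m G) : Pit m G' := by
  intro F hF
  refine (hp F hF).trans (mul_le_mul_left (ENNReal.ofReal_le_ofReal ?_) _)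
  have hpi := Real.pi_pos
  gcongr

/-- the bound at a node -/
def Nd (m k : ℝ) : Prop := ∀ ε : ℝ, 0 < ε → ∃ n₀ : ℕ, ∀ n : ℕ, n₀ ≤ n → ∀ f : SchwartzMap ℂ ℂ,
  eLpNorm (TS n f) (ENNReal.ofReal (2 * m)) volume ≤
    ENNReal.ofReal ((1 + ε) * ((n : ℝ) ^ (1 - 1 / m) * k)) *
      eLpNorm (fun z : ℂ => f z) (ENNReal.ofReal (2 * m)) volume

theorem nd_one (h : S_PLZ) : Nd 1 1 := by
  intro ε hε
  refine ⟨0, fun n _ f => ?_⟩
  rw [mul_one]
  refine (h n f).trans ?_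
  have h3 : (1 : ℝ≥0∞) ≤ ENNReal.ofReal ((1 + ε) * ((n : ℝ) ^ (1 - 1 / (1 : ℝ)) * 1)) := by
    rw [ENNReal.one_le_ofReal]
    norm_num
    linarith
  calc eLpNorm (fun z : ℂ => f z) (ENNReal.ofReal 2) volume
      = 1 * eLpNorm (fun z : ℂ => f z) (ENNReal.ofReal 2) volume := (one_mul _).symm
    _ ≤ _ := mul_le_mul' h3 le_rfl

theorem nd_of (h : R_FUL) {m k : ℝ} (hm : Rg m) (hk : 0 < k) (hp : Pit m k) : Nd m k := by
  intro ε hε
  obtain ⟨n₀, hn₀⟩ := h m k ε hm hk hp hε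
  exact ⟨n₀, hn₀⟩

theorem c4_pos : 0 < c4 := div_pos (Real.Gamma_pos_of_pos (by norm_num)) (Real.Gamma_pos_of_pos (by norm_num))

theorem KK_nonneg {θ : ℝ} (h0 : 0 < θ) (h1 : θ < 1) : 0 < KK θ := by
  unfold KK aa bb
  have hc := c4_pos
  have a1 : 0 < 4 + (2 * θ - θ ^ 2) / 3 := by nlinarith
  have a2 : 0 < (2 - θ) * (12 + 2 * θ - θ ^ 2) := mul_pos (by linarith) (by nlinarith)
  have a3 : 0 < 20 - 7 * θ := by linarith
  have a4 : 0 < 17 + (1 - θ ^ 2) / 3 + 64 * ((20 - 7 * θ) / ((2 - θ) * (12 + 2 * θ - θ ^ 2))) := by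
    have : 0 < (20 - 7 * θ) / ((2 - θ) * (12 + 2 * θ - θ ^ 2)) := div_pos a3 a2
    nlinarith
  have a5 : 0 < 2 - θ := by linarith
  positivity

theorem pit_nat (h : S_PIT) {m : ℕ} (hm : 2 ≤ m) : Pit m (GA m) := by
  intro F hF
  have h1 := h m hm F hF
  have e1 : ∀ a : ℝ≥0∞, a ^ (2 * (m : ℝ)) = a ^ (2 * m) := by
    intro a
    rw [← ENNReal.rpow_natCast]
    push_cast
    rfl
  have e2 : ∀ a : ℝ≥0∞, a ^ (4 * (m : ℝ) - 4) = a ^ (4 * m - 4) := by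
    intro a
    rw [← ENNReal.rpow_natCast, Nat.cast_sub (by omega)]
    push_cast
    rfl
  have e3 : ∀ a : ℝ, a ^ (2 * (m : ℝ)) = a ^ (2 * m) := by
    intro a
    rw [← Real.rpow_natCast]
    push_cast
    rfl
  simp only [e1, e2, e3]
  exact h1

/-- all the nodes -/
theorem nodes (hPIT : P_PIT) (hDBL : P_DBL) (hNMK : P_NMK) (hNMG : P_NMG) (hS : S_PIT) (hF : R_FUL) (hZ : S_PLZ) :
    Nd 1 1 ∧ Nd (11 / 10) (1199 / 1000) ∧ Nd (13 / 10) (15945 / 10000) ∧ Nd (13 / 8) (2233 / 1000) ∧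
    Nd 2 (2965 / 1000) ∧ Nd (49 / 20) (387 / 100) ∧ Nd 3 (495 / 100) := by
  obtain ⟨hc, hG6, hRB⟩ := hNMG
  obtain ⟨k1, k2, k3, k4⟩ := hNMK hc
  refine ⟨nd_one hZ, ?_, ?_, ?_, ?_, ?_, ?_⟩
  · refine nd_of hF ⟨by norm_num, by norm_num⟩ (by norm_num) ?_
    have h1 := hPIT (2 / 11) (by norm_num) (by norm_num)
    norm_num at h1
    exact pit_mono (by norm_num) (KK_nonneg (θ := 2 / 11) (by norm_num) (by norm_num)).le (by simpa using k1) (by simpa using h1)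
  · refine nd_of hF ⟨by norm_num, by norm_num⟩ (by norm_num) ?_
    have h1 := hPIT (6 / 13) (by norm_num) (by norm_num)
    norm_num at h1
    exact pit_mono (by norm_num) (KK_nonneg (θ := 6 / 13) (by norm_num) (by norm_num)).le (by simpa using k2) (by simpa using h1)
  · refine nd_of hF ⟨by norm_num, by norm_num⟩ (by norm_num) ?_
    have h1 := hPIT (10 / 13) (by norm_num) (by norm_num)
    norm_num at h1
    exact pit_mono (by norm_num) (KK_nonneg (θ := 10 / 13) (by norm_num) (by norm_num)).le (by simpa using k3) (by simpa using h1)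
  · refine nd_of hF ⟨by norm_num, by norm_num⟩ (by norm_num) ?_
    have h1 := pit_nat hS (m := 2) le_rfl
    have h2 : GA 2 = c4 := by
      unfold GA c4
      norm_num
    rw [h2] at h1
    exact pit_mono (by norm_num) c4_pos.le (hc.trans (by norm_num)) (by exact_mod_cast h1)
  · refine nd_of hF ⟨by norm_num, by norm_num⟩ (by norm_num) ?_
    have h1 := hPIT (18 / 49) (by norm_num) (by norm_num)
    norm_num at h1
    have hK := KK_nonneg (θ := 18 / 49) (by norm_num) (by norm_num)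
    have h2 := hDBL (49 / 40) (KK (18 / 49)) (by norm_num) hK h1
    norm_num at h2
    refine pit_mono (by norm_num) (Real.sqrt_nonneg _) ?_ h2
    rw [Real.sqrt_le_left (by norm_num)]
    have hRB0 : 0 ≤ RB (20 / 49) (20 / 49) / Real.pi := by
      unfold RB
      have g1 : 0 < Real.Gamma (20 / 49 / 2) := Real.Gamma_pos_of_pos (by norm_num)
      have g2 : 0 < Real.Gamma (1 - (20 / 49 + 20 / 49) / 2) := Real.Gamma_pos_of_pos (by norm_num)
      have g3 : 0 < Real.Gamma (1 - 20 / 49 / 2) := Real.Gamma_pos_of_pos (by norm_num)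
      have g4 : 0 < Real.Gamma ((20 / 49 + 20 / 49) / 2) := Real.Gamma_pos_of_pos (by norm_num)
      positivity
    rw [mul_div_assoc]
    calc KK (18 / 49) * (RB (20 / 49) (20 / 49) / Real.pi) ≤ 1447 / 1000 * (1035 / 100) :=
          mul_le_mul k4 hRB hRB0 (by norm_num)
      _ ≤ (387 / 100) ^ 2 := by norm_num
  · refine nd_of hF ⟨by norm_num, by norm_num⟩ (by norm_num) ?_
    have h1 := pit_nat hS (m := 3) (by norm_num)
    have h2 : GA 3 = Real.Gamma (1 / 6) / Real.Gamma (5 / 6) := by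
      unfold GA
      norm_num
    have h3 : 0 < Real.Gamma (1 / 6) / Real.Gamma (5 / 6) :=
      div_pos (Real.Gamma_pos_of_pos (by norm_num)) (Real.Gamma_pos_of_pos (by norm_num))
    rw [h2] at h1
    exact pit_mono (by norm_num) h3.le hG6 (by exact_mod_cast h1)

/-- interpolation between two nodes -/
theorem between (hR : S_RTT) {m₀ k₀ m₁ k₁ t p : ℝ} (hm0 : 1 ≤ m₀) (hmm : m₀ < m₁) (hk0 : 0 < k₀) (hk1 : 0 < k₁)
    (h0 : Nd m₀ k₀) (h1 : Nd m₁ k₁) (ht0 : 0 ≤ t) (ht1 : t ≤ 1)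
    (he : 1 / p = (1 - t) / (2 * m₀) + t / (2 * m₁)) (hlt : k₀ ^ (1 - t) * k₁ ^ t < p - 1) :
    ∃ n₀ : ℕ, ∀ n : ℕ, n₀ ≤ n → ∀ f : SchwartzMap ℂ ℂ,
      eLpNorm (TS n f) (ENNReal.ofReal p) volume ≤
        ENNReal.ofReal ((n : ℝ) ^ (1 - 2 / p) * (p - 1)) *
          eLpNorm (fun z : ℂ => f z) (ENNReal.ofReal p) volume := by
  obtain ⟨G, hG⟩ : ∃ G : ℝ, G = k₀ ^ (1 - t) * k₁ ^ t := ⟨_, rfl⟩
  have hG0 : 0 < G := by rw [hG]; positivity
  rw [← hG] at hlt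
  obtain ⟨ε, hε⟩ : ∃ ε : ℝ, ε = (p - 1) / G - 1 := ⟨_, rfl⟩
  have e0 : 0 < ε := by
    rw [hε, sub_pos, lt_div_iff₀ hG0]
    linarith
  have e1 : (1 + ε) * G = p - 1 := by
    rw [hε]
    field_simp
    ring
  obtain ⟨n₀, hn₀⟩ := h0 ε e0
  obtain ⟨n₁, hn₁⟩ := h1 ε e0
  refine ⟨max (max n₀ n₁) 1, fun n hn f => ?_⟩
  have hn1 : 1 ≤ n := (le_max_right _ _).trans hn
  have hnp : (0 : ℝ) < n := by exact_mod_cast hn1
  have ha := hn₀ n (((le_max_left _ _).trans (le_max_left _ _)).trans hn)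
  have hb := hn₁ n (((le_max_right _ _).trans (le_max_left _ _)).trans hn)
  have hs : (0 : ℝ) < 1 + ε := by linarith
  have hK0 : 0 < (1 + ε) * ((n : ℝ) ^ (1 - 1 / m₀) * k₀) := by positivity
  have hK1 : 0 < (1 + ε) * ((n : ℝ) ^ (1 - 1 / m₁) * k₁) := by positivity
  have hmain := hR n (2 * m₀) (2 * m₁) p t _ _ (by linarith) (by linarith) ht0 ht1 he hK0 hK1 ha hb f
  refine hmain.trans (mul_le_mul' (ENNReal.ofReal_le_ofReal (le_of_eq ?_)) le_rfl)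
  have hm0' : 0 < m₀ := by linarith
  have hm1' : 0 < m₁ := by linarith
  have hx : (1 - 1 / m₀) * (1 - t) + (1 - 1 / m₁) * t = 1 - 2 / p := by
    have h5 : (2 : ℝ) / p = (1 - t) / m₀ + t / m₁ := by
      have h6 : (2 : ℝ) / p = 2 * (1 / p) := by ring
      rw [h6, he]
      field_simp
    rw [h5]
    field_simp
    ring
  rw [Real.mul_rpow hs.le (by positivity), Real.mul_rpow hs.le (by positivity),
    Real.mul_rpow (by positivity) hk0.le, Real.mul_rpow (by positivity) hk1.le,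
    ← Real.rpow_mul hnp.le, ← Real.rpow_mul hnp.le]
  have e2 : (1 + ε) ^ (1 - t) * (1 + ε) ^ t = 1 + ε := by
    rw [← Real.rpow_add hs]
    simp
  have e3 : (n : ℝ) ^ ((1 - 1 / m₀) * (1 - t)) * (n : ℝ) ^ ((1 - 1 / m₁) * t) = (n : ℝ) ^ (1 - 2 / p) := by
    rw [← Real.rpow_add hnp, hx]
  calc (1 + ε) ^ (1 - t) * ((n : ℝ) ^ ((1 - 1 / m₀) * (1 - t)) * k₀ ^ (1 - t)) *
        ((1 + ε) ^ t * ((n : ℝ) ^ ((1 - 1 / m₁) * t) * k₁ ^ t))
      = ((1 + ε) ^ (1 - t) * (1 + ε) ^ t) *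
        ((n : ℝ) ^ ((1 - 1 / m₀) * (1 - t)) * (n : ℝ) ^ ((1 - 1 / m₁) * t)) * (k₀ ^ (1 - t) * k₁ ^ t) := by ring
    _ = (n : ℝ) ^ (1 - 2 / p) * ((1 + ε) * G) := by rw [e2, e3, ← hG]; ring
    _ = _ := by rw [e1]

/-- the theorem for `2 ≤ p ≤ 6` and, with the library, for all `p ≥ 2` -/
theorem t (hPIT : P_PIT) (hDBL : P_DBL) (hNMK : P_NMK) (hNMG : P_NMG) (hNOD : P_NOD) (hS : S_PIT) (hF : R_FUL)
    (hZ : S_PLZ) (hR : S_RTT) (hB : S_REB) (p : ℝ) (hp : 2 ≤ p) :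
    ∃ n₀ : ℕ, ∀ n : ℕ, n₀ ≤ n → ∀ f : SchwartzMap ℂ ℂ,
      eLpNorm (TS n f) (ENNReal.ofReal p) volume ≤
        ENNReal.ofReal ((n : ℝ) ^ (1 - 2 / p) * (p - 1)) *
          eLpNorm (fun z : ℂ => f z) (ENNReal.ofReal p) volume := by
  obtain ⟨n0, n1, n2, n3, n4, n5, n6⟩ := nodes hPIT hDBL hNMK hNMG hS hF hZ
  rcases hp.eq_or_lt with h2 | h2
  · subst h2
    refine ⟨0, fun n _ f => ?_⟩
    have := hZ n f
    norm_num
    simpa using this
  rcases le_or_gt p 6 with h6 | h6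
  · obtain ⟨m₀, k₀, m₁, k₁, t, hmem, ht0, ht1, he, hlt⟩ := hNOD p h2 h6
    simp only [List.mem_cons, List.mem_nil_iff, or_false, Prod.mk.injEq] at hmem
    rcases hmem with ⟨⟨rfl, rfl⟩, rfl, rfl⟩ | ⟨⟨rfl, rfl⟩, rfl, rfl⟩ | ⟨⟨rfl, rfl⟩, rfl, rfl⟩ |
      ⟨⟨rfl, rfl⟩, rfl, rfl⟩ | ⟨⟨rfl, rfl⟩, rfl, rfl⟩ | ⟨⟨rfl, rfl⟩, rfl, rfl⟩
    · exact between hR (by norm_num) (by norm_num) (by norm_num) (by norm_num) n0 n1 ht0 ht1 he hlt
    · exact between hR (by norm_num) (by norm_num) (by norm_num) (by norm_num) n1 n2 ht0 ht1 he hlt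
    · exact between hR (by norm_num) (by norm_num) (by norm_num) (by norm_num) n2 n3 ht0 ht1 he hlt
    · exact between hR (by norm_num) (by norm_num) (by norm_num) (by norm_num) n3 n4 ht0 ht1 he hlt
    · exact between hR (by norm_num) (by norm_num) (by norm_num) (by norm_num) n4 n5 ht0 ht1 he hlt
    · exact between hR (by norm_num) (by norm_num) (by norm_num) (by norm_num) n5 n6 ht0 ht1 he hlt
  · exact hB p (Or.inr (by linarith))

end Pool.Agent.H78.PB.FIN
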