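import Mathlib
import Pool.Agent.H78.PB.Stm

/-!
Project PB: the chords between the nodes, with room for a factor `1 + ε` (uniform version).
-/

set_option autoImplicit false

namespace Pool.Agent.H78.PB

/-- NOD2: the chords between the nodes, with slightly larger constants -/
def P_NOD2 : Prop := ∀ p : ℝ, 2 ≤ p → p ≤ 6 → ∃ m₀ k₀ m₁ k₁ t : ℝ,
  ((m₀, k₀), (m₁, k₁)) ∈ ([((1, 1), (11 / 10, 11992 / 10000)),
    ((11 / 10, 11992 / 10000), (13 / 10, 15948 / 10000)), ((13 / 10, 15948 / 10000), (13 / 8, 2234 / 1000)),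
    ((13 / 8, 2234 / 1000), (2, 2967 / 1000)), ((2, 2967 / 1000), (49 / 20, 3873 / 1000)),
    ((49 / 20, 3873 / 1000), (3, 4953 / 1000))] : List ((ℝ × ℝ) × (ℝ × ℝ))) ∧
  0 ≤ t ∧ t ≤ 1 ∧ 1 / p = (1 - t) / (2 * m₀) + t / (2 * m₁) ∧ k₀ ^ (1 - t) * k₁ ^ t ≤ p - 1

end Pool.Agent.H78.PB
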