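import Mathlib
import Pool.Agent.N892.BW.ALL
import Pool.Agent.Lead.PB.RNUM
import Pool.Agent.Lead.PB.RENU
import Pool.Agent.H33PB.CRS
import Pool.Agent.H13PB.RCMP
import Pool.Agent.H9PB.MUL
import Pool.Agent.H11PB.RNEA
import Pool.Agent.H11PB.RFAR
import Pool.Agent.H9PB.LOC
import Pool.Agent.H9PB.PAL
import Pool.Agent.H13PB.RMZC
import Pool.Agent.H45.PB.RYNG
import Pool.Agent.H45.PB.RINT
import Pool.Agent.H1PB.CELL
import Pool.Agent.H45.PB.RLQT
import Pool.Agent.H9PB.DUT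
import Pool.Agent.H45.PB.RSTR
import Pool.Agent.H13PB.RFNT
import Pool.Agent.H11PB.RPGL
import Pool.Agent.H2PB.DMX
import Pool.Agent.H2PB.LPS
import Pool.Agent.H2PB.LPF
import Pool.Agent.H2PB.SPT
import Pool.Agent.H11PB.RREV
import Pool.Agent.H13PB.RSUQ
import Pool.Agent.H84PB.FTH
import Pool.Agent.H10PB.RFUL

/-! Project PB, assembly of part A (real exponents). -/

set_option autoImplicit false

namespace Pool.Agent.H78.PB.ALLA

open Pool.Agent.N892.BW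

theorem num : R_NUM := Pool.Agent.Lead.PB.t
theorem enu : R_ENU := Pool.Agent.Lead.PB.ENU.t ALL.bas num
theorem dmx : R_DMX := Pool.Agent.H2PB.DMX.t ALL.hlm ALL.rdm
theorem crs : R_CRS := Pool.Agent.H33PB.CRS.t dmx
theorem cmp : R_CMP := Pool.Agent.H13PB.RCMP.t
theorem mul : R_MUL := Pool.Agent.H9PB.MUL.t ALL.bas ALL.cnv
theorem nea : R_NEA := Pool.Agent.H11PB.RNEA.t
theorem far : R_FAR := Pool.Agent.H11PB.RFAR.t
theorem loc : R_LOC := Pool.Agent.H9PB.LOC.t ALL.rep mul nea far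
theorem pal : R_PAL := Pool.Agent.H9PB.PAL.t
theorem mzc : R_MZC := Pool.Agent.H13PB.RMZC.t pal
theorem yng : R_YNG := Pool.Agent.H45.PB.YNG.t
theorem int : R_INT := Pool.Agent.H45.PB.INT.t yng
theorem cell : R_CELL := Pool.Agent.H1PB.CELL.t mzc
theorem lqt : R_LQT := Pool.Agent.H45.PB.LQT.t int cell
theorem dut : R_DUT := Pool.Agent.H9PB.DUT.t
theorem str : R_STR := Pool.Agent.H45.PB.STR.t loc lqt dut
theorem fnt : R_FNT := Pool.Agent.H13PB.RFNT.t mul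
theorem pgl : R_PGL := Pool.Agent.H11PB.RPGL.t
theorem lps : R_LPS := Pool.Agent.H2PB.LPS.t ALL.bas ALL.cnv ALL.plt ALL.maj ALL.wlt pgl dmx
theorem lpf : R_LPF := Pool.Agent.H2PB.LPF.t lps
theorem rev : R_REV := Pool.Agent.H11PB.RREV.t ALL.bas ALL.low ALL.hlm enu crs
theorem suq : R_SUQ := Pool.Agent.H13PB.RSUQ.t dmx lpf
theorem spt : R_SPT := Pool.Agent.H2PB.SPT.t ALL.bas lps rev
theorem fth (inr : R_INR) : R_FTH :=
  Pool.Agent.H84PB.FTH.tb ALL.bas enu suq cmp str inr spt fnt lpf crs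
theorem ful (inr : R_INR) : R_FUL := Pool.Agent.H10PB.RFUL.t (fth inr)

end Pool.Agent.H78.PB.ALLA
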