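import Mathlib
import Pool.Agent.H78.PB.Stm3
import Pool.Agent.H78.PB.FIN

/-! Project PB, final assembly, uniform version. -/

set_option autoImplicit false

open MeasureTheory ENNReal Filter Topology Complex

namespace Pool.Agent.H78.PB.FIN2

open Pool.Agent.N892.BW Pool.Agent.H78.PB.FIN

/-- the bound for one `n` -/
def Un (n : ℕ) (m k : ℝ) : Prop := ∀ f : SchwartzMap ℂ ℂ,
  eLpNorm (TS n f) (ENNReal.ofReal (2 * m)) volume ≤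
    ENNReal.ofReal ((n : ℝ) ^ (1 - 1 / m) * k) * eLpNorm (fun z : ℂ => f z) (ENNReal.ofReal (2 * m)) volume

theorem un_one (h : S_PLZ) (n : ℕ) : Un n 1 1 := by
  intro f
  rw [mul_one]
  refine (h n f).trans ?_
  have h3 : ENNReal.ofReal ((n : ℝ) ^ (1 - 1 / (1 : ℝ)) * 1) = 1 := by norm_num
  rw [h3, one_mul]

theorem un_of {m k k' : ℝ} (hk : k * (10001 / 10000) ≤ k') (h : Nd m k) :
    ∃ n₀ : ℕ, ∀ n : ℕ, n₀ ≤ n → Un n m k' := by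
  obtain ⟨n₀, hn₀⟩ := h (1 / 10000) (by norm_num)
  refine ⟨n₀, fun n hn f => (hn₀ n hn f).trans (mul_le_mul_left (ENNReal.ofReal_le_ofReal ?_) _)⟩
  have h1 : 0 ≤ (n : ℝ) ^ (1 - 1 / m) := Real.rpow_nonneg (Nat.cast_nonneg n) _
  calc (1 + 1 / 10000) * ((n : ℝ) ^ (1 - 1 / m) * k) = (n : ℝ) ^ (1 - 1 / m) * (k * (10001 / 10000)) := by ring
    _ ≤ _ := mul_le_mul_of_nonneg_left hk h1

/-- interpolation between two nodes -/
theorem between (hR : S_RTT) {n : ℕ} (hn1 : 1 ≤ n) {m₀ k₀ m₁ k₁ t p : ℝ} (hm0 : 1 ≤ m₀) (hmm : m₀ < m₁)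
    (hk0 : 0 < k₀) (hk1 : 0 < k₁)
    (h0 : Un n m₀ k₀) (h1 : Un n m₁ k₁) (ht0 : 0 ≤ t) (ht1 : t ≤ 1)
    (he : 1 / p = (1 - t) / (2 * m₀) + t / (2 * m₁)) (hlt : k₀ ^ (1 - t) * k₁ ^ t ≤ p - 1)
    (f : SchwartzMap ℂ ℂ) :
    eLpNorm (TS n f) (ENNReal.ofReal p) volume ≤
      ENNReal.ofReal ((n : ℝ) ^ (1 - 2 / p) * (p - 1)) *
        eLpNorm (fun z : ℂ => f z) (ENNReal.ofReal p) volume := by
  have hnp : (0 : ℝ) < n := by exact_mod_cast hn1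
  have hK0 : 0 < (n : ℝ) ^ (1 - 1 / m₀) * k₀ := by positivity
  have hK1 : 0 < (n : ℝ) ^ (1 - 1 / m₁) * k₁ := by positivity
  have hmain := hR n (2 * m₀) (2 * m₁) p t _ _ (by linarith) (by linarith) ht0 ht1 he hK0 hK1 h0 h1 f
  refine hmain.trans (mul_le_mul' (ENNReal.ofReal_le_ofReal ?_) le_rfl)
  have hm0' : 0 < m₀ := by linarith
  have hm1' : 0 < m₁ := by linarith
  have hx : (1 - 1 / m₀) * (1 - t) + (1 - 1 / m₁) * t = 1 - 2 / p := by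
    have h5 : (2 : ℝ) / p = (1 - t) / m₀ + t / m₁ := by
      have h6 : (2 : ℝ) / p = 2 * (1 / p) := by ring
      rw [h6, he]
      field_simp
    rw [h5]
    field_simp
    ring
  rw [Real.mul_rpow (by positivity) hk0.le, Real.mul_rpow (by positivity) hk1.le,
    ← Real.rpow_mul hnp.le, ← Real.rpow_mul hnp.le]
  have e3 : (n : ℝ) ^ ((1 - 1 / m₀) * (1 - t)) * (n : ℝ) ^ ((1 - 1 / m₁) * t) = (n : ℝ) ^ (1 - 2 / p) := by
    rw [← Real.rpow_add hnp, hx]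
  calc (n : ℝ) ^ ((1 - 1 / m₀) * (1 - t)) * k₀ ^ (1 - t) *
        ((n : ℝ) ^ ((1 - 1 / m₁) * t) * k₁ ^ t)
      = ((n : ℝ) ^ ((1 - 1 / m₀) * (1 - t)) * (n : ℝ) ^ ((1 - 1 / m₁) * t)) * (k₀ ^ (1 - t) * k₁ ^ t) := by ring
    _ = (n : ℝ) ^ (1 - 2 / p) * (k₀ ^ (1 - t) * k₁ ^ t) := by rw [e3]
    _ ≤ _ := mul_le_mul_of_nonneg_left hlt (by positivity)

/-- uniform version for `2 ≤ p ≤ 6` -/
theorem t (hPIT : P_PIT) (hDBL : P_DBL) (hNMK : P_NMK) (hNMG : P_NMG) (hNOD : P_NOD2) (hS : S_PIT) (hF : R_FUL)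
    (hZ : S_PLZ) (hR : S_RTT) :
    ∃ n₀ : ℕ, ∀ n : ℕ, n₀ ≤ n → ∀ p : ℝ, 2 ≤ p → p ≤ 6 → ∀ f : SchwartzMap ℂ ℂ,
      eLpNorm (TS n f) (ENNReal.ofReal p) volume ≤
        ENNReal.ofReal ((n : ℝ) ^ (1 - 2 / p) * (p - 1)) *
          eLpNorm (fun z : ℂ => f z) (ENNReal.ofReal p) volume := by
  obtain ⟨-, n1, n2, n3, n4, n5, n6⟩ := nodes hPIT hDBL hNMK hNMG hS hF hZ
  obtain ⟨a1, h1⟩ := un_of (k' := 11992 / 10000) (by norm_num) n1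
  obtain ⟨a2, h2⟩ := un_of (k' := 15948 / 10000) (by norm_num) n2
  obtain ⟨a3, h3⟩ := un_of (k' := 2234 / 1000) (by norm_num) n3
  obtain ⟨a4, h4⟩ := un_of (k' := 2967 / 1000) (by norm_num) n4
  obtain ⟨a5, h5⟩ := un_of (k' := 3873 / 1000) (by norm_num) n5
  obtain ⟨a6, h6⟩ := un_of (k' := 4953 / 1000) (by norm_num) n6
  refine ⟨a1 + a2 + a3 + a4 + a5 + a6 + 1, fun n hn p hp2 hp6 f => ?_⟩
  have h0 := un_one hZ n
  have h1 := h1 n (by omega)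
  have h2 := h2 n (by omega)
  have h3 := h3 n (by omega)
  have h4 := h4 n (by omega)
  have h5 := h5 n (by omega)
  have h6 := h6 n (by omega)
  have hn1 : 1 ≤ n := by omega
  obtain ⟨m₀, k₀, m₁, k₁, t, hmem, ht0, ht1, he, hlt⟩ := hNOD p hp2 hp6
  simp only [List.mem_cons, List.mem_nil_iff, or_false, Prod.mk.injEq] at hmem
  rcases hmem with ⟨⟨rfl, rfl⟩, rfl, rfl⟩ | ⟨⟨rfl, rfl⟩, rfl, rfl⟩ | ⟨⟨rfl, rfl⟩, rfl, rfl⟩ |
    ⟨⟨rfl, rfl⟩, rfl, rfl⟩ | ⟨⟨rfl, rfl⟩, rfl, rfl⟩ | ⟨⟨rfl, rfl⟩, rfl, rfl⟩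
  · exact between hR hn1 (by norm_num) (by norm_num) (by norm_num) (by norm_num) h0 h1 ht0 ht1 he hlt f
  · exact between hR hn1 (by norm_num) (by norm_num) (by norm_num) (by norm_num) h1 h2 ht0 ht1 he hlt f
  · exact between hR hn1 (by norm_num) (by norm_num) (by norm_num) (by norm_num) h2 h3 ht0 ht1 he hlt f
  · exact between hR hn1 (by norm_num) (by norm_num) (by norm_num) (by norm_num) h3 h4 ht0 ht1 he hlt f
  · exact between hR hn1 (by norm_num) (by norm_num) (by norm_num) (by norm_num) h4 h5 ht0 ht1 he hlt f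
  · exact between hR hn1 (by norm_num) (by norm_num) (by norm_num) (by norm_num) h5 h6 ht0 ht1 he hlt f

end Pool.Agent.H78.PB.FIN2
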