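import Mathlib
import Pool.Agent.N892.BW.ALL
import Pool.Agent.H78.PB.Stm
import Pool.Agent.H78.PB.Stm2
import Pool.Agent.H78.PB.Stm3
import Pool.Agent.H78.PB.FIN
import Pool.Agent.H78.PB.FIN2
import Pool.Agent.H61.PB.KP
import Pool.Agent.H47PB.MOM
import Pool.Agent.H47PB.CRZ
import Pool.Agent.H5PB.NUP
import Pool.Agent.H5PB.NU
import Pool.Agent.H75PB.RR
import Pool.Agent.H83PB.PL4
import Pool.Agent.H83PB.DBL
import Pool.Agent.H7PB.KEA
import Pool.Agent.H35PB.KEB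
import Pool.Agent.H38PB.NMK
import Pool.Agent.H38PB.NMG
import Pool.Agent.H75PB.NOD
import Pool.Agent.H75PB.NOD2
import Pool.Agent.H15PB.PIT

/-! Project PB, assembly of part B. -/

set_option autoImplicit false

open MeasureTheory ENNReal Filter Topology Complex

namespace Pool.Agent.H78.PB.ALLB

open Pool.Agent.N892.BW Pool.Agent.H78.PB

theorem krn : P_KRN := Pool.Agent.H61.PB.t_KRN
theorem poi : P_POI := Pool.Agent.H61.PB.t_POI
theorem mom : P_MOM := Pool.Agent.H47PB.MOM.t krn poi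
theorem nup : P_NUP := Pool.Agent.H5PB.NUP.t
theorem nu : P_NU := Pool.Agent.H5PB.NU.t krn mom nup
theorem rr : P_RR := Pool.Agent.H75PB.RR.t krn nu
theorem crz : P_CRZ := Pool.Agent.H47PB.CRZ.t
theorem pl4 : P_PL4 := Pool.Agent.H83PB.PL4.t
theorem kea : P_KEA := Pool.Agent.H7PB.KEA.t krn pl4 rr
theorem keb : P_KEB := Pool.Agent.H35PB.KEB.t krn rr
theorem pit : P_PIT := Pool.Agent.H15PB.t krn poi mom kea keb crz
theorem dbl : P_DBL := Pool.Agent.H83PB.DBL.t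
theorem nmk : P_NMK := Pool.Agent.H38PB.NMK.t
theorem nmg : P_NMG := Pool.Agent.H38PB.NMG.t
theorem nod : P_NOD := Pool.Agent.H75PB.NOD.t
theorem nod2 : P_NOD2 := Pool.Agent.H75PB.NOD2.t

/-- the pointwise theorem -/
theorem pointwise (ful : R_FUL) (p : ℝ) (hp : 2 ≤ p) :
    ∃ n₀ : ℕ, ∀ n : ℕ, n₀ ≤ n → ∀ f : SchwartzMap ℂ ℂ,
      eLpNorm (TS n f) (ENNReal.ofReal p) volume ≤
        ENNReal.ofReal ((n : ℝ) ^ (1 - 2 / p) * (p - 1)) *
          eLpNorm (fun z : ℂ => f z) (ENNReal.ofReal p) volume :=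
  FIN.t pit dbl nmk nmg nod Pool.Agent.N892.BW.H1.pit ful ALL.plz ALL.rtt ALL.reb p hp

/-- the uniform theorem on `[2, 6]` -/
theorem upto6 (ful : R_FUL) :
    ∃ n₀ : ℕ, ∀ n : ℕ, n₀ ≤ n → ∀ p : ℝ, 2 ≤ p → p ≤ 6 → ∀ f : SchwartzMap ℂ ℂ,
      eLpNorm (TS n f) (ENNReal.ofReal p) volume ≤
        ENNReal.ofReal ((n : ℝ) ^ (1 - 2 / p) * (p - 1)) *
          eLpNorm (fun z : ℂ => f z) (ENNReal.ofReal p) volume :=
  FIN2.t pit dbl nmk nmg nod2 Pool.Agent.N892.BW.H1.pit ful ALL.plz ALL.rtt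

end Pool.Agent.H78.PB.ALLB
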