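import Mathlib
import Pool.Agent.H78.PB.Stm4
import Pool.Agent.H78.PB.ALLA
import Pool.Agent.H78.PB.ALLB
import Pool.Agent.H1PB.GSM
import Pool.Agent.H1PB.INR
import Pool.Agent.H5PB.LUN

/-! Project PB, final assembly. -/

set_option autoImplicit false

open MeasureTheory ENNReal Filter Topology Complex

namespace Pool.Agent.H78.PB.ALL

open Pool.Agent.N892.BW Pool.Agent.H78.PB

theorem inr : R_INR := Pool.Agent.H1PB.INR.t Pool.Agent.H1PB.GSM.t
theorem ful : R_FUL := ALLA.ful inr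
theorem lun : C_LUN := Pool.Agent.H5PB.LUN.t Pool.Agent.N892.BW.ALL.ful Pool.Agent.N892.BW.ALL.plz
  Pool.Agent.N892.BW.ALL.rtt Pool.Agent.N892.BW.ALL.nui

/-- the theorem: the inequality of the question, locally uniformly in `p ≥ 2`, for large `n` -/
theorem main : ∀ P : ℝ, ∃ n₀ : ℕ, ∀ n : ℕ, n₀ ≤ n → ∀ p : ℝ, 2 ≤ p → p ≤ P →
    ∀ f : SchwartzMap ℂ ℂ,
      eLpNorm (TS n f) (ENNReal.ofReal p) volume ≤
        ENNReal.ofReal ((n : ℝ) ^ (1 - 2 / p) * (p - 1)) *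
          eLpNorm (fun z : ℂ => f z) (ENNReal.ofReal p) volume := by
  intro P
  obtain ⟨a, ha⟩ := ALLB.upto6 ful
  obtain ⟨b, hb⟩ := lun P
  refine ⟨max a b, fun n hn p hp2 hpP f => ?_⟩
  rcases le_total p 6 with h | h
  · exact ha n (le_trans (le_max_left _ _) hn) p hp2 h f
  · exact hb n (le_trans (le_max_right _ _) hn) p h hpP f

end Pool.Agent.H78.PB.ALL
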