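import Mathlib
import Pool.Agent.H78.PB.Stm4

/-!
Project PB, part C, supplement: all real exponents `p ≥ 6`.
-/

set_option autoImplicit false

open MeasureTheory ENNReal Filter Topology

namespace Pool.Agent.H78.PB

open Pool.Agent.N892.BW

open Classical in
/-- the factor: `1.005` for `p ∈ [2, 6] ∪ [10, ∞)`, `1.011` for `p ∈ (6, 10)` -/
noncomputable def cfac (p : ℝ) : ℝ := if p ≤ 6 ∨ 10 ≤ p then 1005 / 1000 else 1011 / 1000

/-- CFA: comparison with the conjectured constants for all real `p ≥ 2`, locally uniformly -/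
def C_CFA : Prop := ∀ P : ℝ, ∃ n₀ : ℕ, ∀ n : ℕ, n₀ ≤ n → ∀ p : ℝ, 2 ≤ p → p ≤ P →
  ∀ f : SchwartzMap ℂ ℂ,
    eLpNorm (TS n f) (ENNReal.ofReal p) volume ≤
      ENNReal.ofReal (cfac p * ∏ j ∈ Finset.range n, ((1 - 1 / p + j) / (1 / p + j))) *
        eLpNorm (fun z : ℂ => f z) (ENNReal.ofReal p) volume

end Pool.Agent.H78.PB
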