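import Mathlib
import Pool.Agent.H78.PB.Stm5
import Pool.Agent.H78.PB.ALL
import Pool.Agent.H83PB.CDB
import Pool.Agent.H13PB.CHO
import Pool.Agent.H13PB.CNM
import Pool.Agent.H5PB.GLB
import Pool.Agent.H15PB.CFI

/-! Project PB, assembly of part C. -/

set_option autoImplicit false

open MeasureTheory ENNReal Filter Topology Complex

namespace Pool.Agent.H78.PB.ALLC

open Pool.Agent.N892.BW Pool.Agent.H78.PB

theorem glb : C_GLB := Pool.Agent.H5PB.GLB.t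
theorem cnm : C_CNM := Pool.Agent.H13PB.CNM.t glb
theorem cdb : C_CDB := Pool.Agent.H83PB.CDB.t ALLB.dbl
theorem cho : C_CHO := Pool.Agent.H13PB.CHO.t
theorem cfi : C_CFI := Pool.Agent.H15PB.CFI.t ALLB.pit ALLB.dbl cnm cdb cho Pool.Agent.H78.PB.ALL.ful
  ALLB.nmg Pool.Agent.N892.BW.H1.pit Pool.Agent.N892.BW.ALL.amg Pool.Agent.N892.BW.ALL.asr
  Pool.Agent.N892.BW.ALL.hoe Pool.Agent.N892.BW.ALL.plz Pool.Agent.N892.BW.ALL.rtt

end Pool.Agent.H78.PB.ALLC
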