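import Mathlib
import Pool.Agent.H78.PB.Stm5

/-!
Project PB, part D: the limit of `‖T ^ n‖_p / n ^ (1 - 2/p)` is the best constant in the inequality of
Pitt (`Pit`), for every real `p = 2 m` with `11/10 ≤ m ≤ 3`.
-/

set_option autoImplicit false

open MeasureTheory ENNReal Filter Topology

namespace Pool.Agent.H78.PB

open Pool.Agent.N892.BW

/-- the bound for `T ^ n` with constant `C n ^ (1 - 1/m)` -/
def Tb (m C : ℝ) (n : ℕ) : Prop := ∀ f : SchwartzMap ℂ ℂ,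
  eLpNorm (TS n f) (ENNReal.ofReal (2 * m)) volume ≤
    ENNReal.ofReal (C * (n : ℝ) ^ (1 - 1 / m)) * eLpNorm (fun z : ℂ => f z) (ENNReal.ofReal (2 * m)) volume

/-- Pitt's inequality for one function -/
def Pt (m C : ℝ) (F : ℂ → ℂ) : Prop :=
  ∫⁻ x, ‖∫ u, F u * ex x u‖ₑ ^ (2 * m) ≤
    ENNReal.ofReal (4 * Real.pi ^ (2 * m) * C ^ (2 * m)) * ∫⁻ u, ‖F u‖ₑ ^ (2 * m) * ‖u‖ₑ ^ (4 * m - 4)

/-- FOC: if the bound for `T ^ n` holds for infinitely many `n` then Pitt's inequality holds for all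
smooth functions with compact support off zero. -/
def E_FOC : Prop := ∀ m C : ℝ, 1 < m → 0 < C → (∃ᶠ n : ℕ in atTop, Tb m C n) →
  ∀ F : ℂ → ℂ, ContDiff ℝ (⊤ : ℕ∞) F → HasCompactSupport F → (0 : ℂ) ∉ tsupport F → Pt m C F

/-- DEN: density -/
def E_DEN : Prop := ∀ m C : ℝ, 1 < m → 0 < C →
  (∀ F : ℂ → ℂ, ContDiff ℝ (⊤ : ℕ∞) F → HasCompactSupport F → (0 : ℂ) ∉ tsupport F → Pt m C F) →
  Pit m C

/-- the norm of `T ^ n` on `L ^ (2 m)`, for Schwartz functions -/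
noncomputable def NT (m : ℝ) (n : ℕ) : ℝ := sInf {C : ℝ | 0 ≤ C ∧ ∀ f : SchwartzMap ℂ ℂ,
  eLpNorm (TS n f) (ENNReal.ofReal (2 * m)) volume ≤
    ENNReal.ofReal C * eLpNorm (fun z : ℂ => f z) (ENNReal.ofReal (2 * m)) volume}

/-- the best constant in Pitt's inequality -/
noncomputable def GP (m : ℝ) : ℝ := sInf {G : ℝ | 0 ≤ G ∧ Pit m G}

/-- LIM: the limit -/
def E_LIM : Prop := ∀ m : ℝ, Rg m →
  Tendsto (fun n : ℕ => NT m n / (n : ℝ) ^ (1 - 1 / m)) atTop (𝓝 (GP m))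

/-- VAL: bounds for the best constant, `s = 1 / (2 m)` -/
def E_VAL : Prop := ∀ m : ℝ, Rg m →
  Gs (1 / (2 * m)) ≤ GP m ∧ GP m ≤ 1005 / 1000 * Gs (1 / (2 * m)) ∧ GP m ≤ 2 * m - 1

end Pool.Agent.H78.PB
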