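import Mathlib
import Pool.Agent.H78.PB.Stm6

/-!
DEN: Pitt's inequality for smooth functions with compact support off zero implies the inequality for
all bounded measurable functions with bounded support (regularisation and Fatou).
-/

set_option autoImplicit false

open MeasureTheory ENNReal Filter Topology
open scoped ComplexConjugate Convolution

namespace Pool.Agent.H78.PB.DEN

open Pool.Agent.N892.BW Pool.Agent.H78.PB

/-- the radius -/
noncomputable def rk (k : ℕ) : ℝ := 1 / (8 * ((k : ℝ) + 1))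

theorem rk_pos (k : ℕ) : 0 < rk k := by unfold rk; positivity

/-- the bump functions -/
noncomputable def bk (k : ℕ) : ContDiffBump (0 : ℂ) := ⟨rk k, 2 * rk k, rk_pos k, by linarith [rk_pos k]⟩

/-- the truncation -/
noncomputable def Gk (F : ℂ → ℂ) (k : ℕ) : ℂ → ℂ := Set.indicator {u : ℂ | 8 * rk k < ‖u‖} F

/-- the regularisation -/
noncomputable def Fk (F : ℂ → ℂ) (k : ℕ) : ℂ → ℂ :=
  ((bk k).normed volume ⋆[ContinuousLinearMap.lsmul ℝ ℝ, volume] Gk F k)

theorem meas_Gk {F : ℂ → ℂ} (hF : Measurable F) (k : ℕ) : Measurable (Gk F k) :=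
  hF.indicator (measurableSet_lt measurable_const measurable_norm)

theorem norm_Gk_le (F : ℂ → ℂ) (k : ℕ) (u : ℂ) : ‖Gk F k u‖ ≤ ‖F u‖ := by
  unfold Gk; exact norm_indicator_le_norm_self F u

theorem nice_locInt {F : ℂ → ℂ} (hF : Measurable F) {M : ℝ} (hM : ∀ x, ‖F x‖ ≤ M) :
    LocallyIntegrable F volume := by
  have h : LocallyIntegrable (fun _ : ℂ => M) volume := locallyIntegrable_const M
  refine h.mono hF.aestronglyMeasurable (Eventually.of_forall fun x => ?_)
  exact (hM x).trans (le_abs_self M)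

theorem contDiff_Fk {F : ℂ → ℂ} (hF : Measurable F) {M : ℝ} (hM : ∀ x, ‖F x‖ ≤ M) (k : ℕ) :
    ContDiff ℝ (⊤ : ℕ∞) (Fk F k) := by
  unfold Fk
  refine HasCompactSupport.contDiff_convolution_left _ (bk k).hasCompactSupport_normed
    (bk k).contDiff_normed ?_
  exact nice_locInt (meas_Gk hF k) (fun x => (norm_Gk_le F k x).trans (hM x))

theorem Fk_supp {F : ℂ → ℂ} {R : ℝ} (hR : ∀ x, R < ‖x‖ → F x = 0) (k : ℕ) (u : ℂ)
    (hu : Fk F k u ≠ 0) : 6 * rk k ≤ ‖u‖ ∧ ‖u‖ ≤ R + 1 := by
  have h1 : ∃ t, (bk k).normed volume t • Gk F k (u - t) ≠ 0 := by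
    by_contra hc
    push Not at hc
    apply hu
    unfold Fk
    rw [convolution_def]
    simp only [ContinuousLinearMap.lsmul_apply]
    rw [integral_congr_ae (g := fun _ => (0 : ℂ)) (Eventually.of_forall hc)]
    simp
  obtain ⟨t, ht⟩ := h1
  have ht1 : (bk k).normed volume t ≠ 0 := fun h => ht (by rw [h, zero_smul])
  have ht2 : Gk F k (u - t) ≠ 0 := fun h => ht (by rw [h, smul_zero])
  have ht3 : t ∈ Function.support ((bk k).normed volume) := ht1
  rw [(bk k).support_normed_eq] at ht3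
  have ht4 : ‖t‖ < 2 * rk k := by
    rw [Metric.mem_ball, dist_zero_right] at ht3
    exact ht3
  have ht5 : 8 * rk k < ‖u - t‖ := by
    by_contra hc
    apply ht2
    unfold Gk
    exact Set.indicator_of_notMem (by simpa using hc) F
  have ht6 : F (u - t) ≠ 0 := by
    intro h
    apply ht2
    unfold Gk
    by_cases hx : (u - t) ∈ {u : ℂ | 8 * rk k < ‖u‖}
    · rw [Set.indicator_of_mem hx, h]
    · exact Set.indicator_of_notMem hx F
  have ht7 : ‖u - t‖ ≤ R := by
    by_contra hc
    exact ht6 (hR _ (not_le.1 hc))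
  have ht8 : 2 * rk k ≤ 1 := by
    unfold rk
    have : (0 : ℝ) ≤ k := Nat.cast_nonneg k
    rw [mul_one_div, div_le_one (by positivity)]
    linarith
  constructor
  · have := norm_sub_le u t
    linarith
  · have : ‖u‖ ≤ ‖u - t‖ + ‖t‖ := by
      calc ‖u‖ = ‖(u - t) + t‖ := by rw [sub_add_cancel]
        _ ≤ _ := norm_add_le _ _
    linarith

theorem tsupp {F : ℂ → ℂ} {R : ℝ} (hR : ∀ x, R < ‖x‖ → F x = 0) (k : ℕ) :
    tsupport (Fk F k) ⊆ {u : ℂ | 6 * rk k ≤ ‖u‖ ∧ ‖u‖ ≤ R + 1} := by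
  apply closure_minimal
  · intro u hu
    exact Fk_supp hR k u hu
  · exact (isClosed_le continuous_const continuous_norm).inter
      (isClosed_le continuous_norm continuous_const)

theorem compactSupp {F : ℂ → ℂ} {R : ℝ} (hR : ∀ x, R < ‖x‖ → F x = 0) (k : ℕ) :
    HasCompactSupport (Fk F k) := by
  apply HasCompactSupport.of_support_subset_isCompact (K := Metric.closedBall 0 (R + 1))
    (isCompact_closedBall 0 (R + 1))
  intro u hu
  rw [mem_closedBall_zero_iff]
  exact (Fk_supp hR k u hu).2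

theorem zero_notMem {F : ℂ → ℂ} {R : ℝ} (hR : ∀ x, R < ‖x‖ → F x = 0) (k : ℕ) :
    (0 : ℂ) ∉ tsupport (Fk F k) := by
  intro h
  have := (tsupp hR k h).1
  rw [norm_zero] at this
  linarith [rk_pos k]

theorem norm_Fk_le {F : ℂ → ℂ} {M : ℝ} (hM : ∀ x, ‖F x‖ ≤ M) (k : ℕ) (u : ℂ) :
    ‖Fk F k u‖ ≤ M := by
  unfold Fk
  rw [convolution_def]
  simp only [ContinuousLinearMap.lsmul_apply]
  have hint : Integrable ((bk k).normed volume) := (bk k).integrable_normed
  calc ‖∫ t, (bk k).normed volume t • Gk F k (u - t)‖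
      ≤ ∫ t, ‖(bk k).normed volume t • Gk F k (u - t)‖ := norm_integral_le_integral_norm _
    _ ≤ ∫ t, (bk k).normed volume t * M := by
        refine integral_mono_of_nonneg (Eventually.of_forall fun t => norm_nonneg _)
          (hint.mul_const M) (Eventually.of_forall fun t => ?_)
        show ‖(bk k).normed volume t • Gk F k (u - t)‖ ≤ (bk k).normed volume t * M
        rw [norm_smul, Real.norm_of_nonneg ((bk k).nonneg_normed t)]
        exact mul_le_mul_of_nonneg_left ((norm_Gk_le F k _).trans (hM _)) ((bk k).nonneg_normed t)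
    _ = M := by
        rw [integral_mul_const, (bk k).integral_normed, one_mul]

theorem rk_tendsto : Tendsto rk atTop (𝓝 0) := by
  have h : Tendsto (fun k : ℕ => (1 / 8 : ℝ) * (1 / ((k : ℝ) + 1))) atTop (𝓝 ((1 / 8) * 0)) :=
    tendsto_one_div_add_atTop_nhds_zero_nat.const_mul _
  rw [mul_zero] at h
  refine h.congr fun k => ?_
  unfold rk
  rw [one_div_mul_one_div]

theorem ae_lim {F : ℂ → ℂ} (hF : Measurable F) {M : ℝ} (hM : ∀ x, ‖F x‖ ≤ M) :
    ∀ᵐ u ∂(volume : Measure ℂ), Tendsto (fun k => Fk F k u) atTop (𝓝 (F u)) := by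
  have hφ : Tendsto (fun k => (bk k).rOut) atTop (𝓝 0) := by
    have h : Tendsto (fun k : ℕ => 2 * rk k) atTop (𝓝 (2 * 0)) := rk_tendsto.const_mul _
    rw [mul_zero] at h
    exact h
  have h1 := ContDiffBump.ae_convolution_tendsto_right_of_locallyIntegrable (μ := (volume : Measure ℂ))
    (φ := bk) (l := atTop) (K := 2) hφ (Eventually.of_forall fun k => le_refl _) (nice_locInt hF hM)
  have h0 : ∀ᵐ u ∂(volume : Measure ℂ), u ≠ 0 := by
    rw [ae_iff]
    simp
  filter_upwards [h1, h0] with u hu hu0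
  refine hu.congr' ?_
  have hpos : 0 < ‖u‖ := norm_pos_iff.2 hu0
  have hev : ∀ᶠ k in atTop, rk k < ‖u‖ / 10 := rk_tendsto.eventually_lt_const (by positivity)
  filter_upwards [hev] with k hk
  unfold Fk
  rw [convolution_def, convolution_def]
  refine integral_congr_ae (Eventually.of_forall fun t => ?_)
  simp only [ContinuousLinearMap.lsmul_apply]
  by_cases ht : (bk k).normed volume t = 0
  · rw [ht, zero_smul, zero_smul]
  · congr 1
    have ht3 : t ∈ Function.support ((bk k).normed volume) := ht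
    rw [(bk k).support_normed_eq] at ht3
    have ht4 : ‖t‖ < 2 * rk k := by
      rw [Metric.mem_ball, dist_zero_right] at ht3
      exact ht3
    have ht5 : 8 * rk k < ‖u - t‖ := by
      have := norm_sub_norm_le u t
      linarith
    unfold Gk
    rw [Set.indicator_of_mem]
    exact ht5

theorem norm_ex (x v : ℂ) : ‖ex x v‖ = 1 := by
  unfold ex
  rw [mul_comm, Complex.norm_exp_ofReal_mul_I]

theorem meas_ex : Measurable fun p : ℂ × ℂ => ex p.1 p.2 := by
  unfold ex
  have : Continuous fun p : ℂ × ℂ => Complex.exp (Complex.I * (((p.1 * conj p.2).im : ℝ) : ℂ)) := by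
    fun_prop
  exact this.measurable

theorem t : E_DEN := by
  intro m C hm hC hP F hF
  obtain ⟨hFm, ⟨M, hM⟩, ⟨R, hR⟩⟩ := hF
  have hM0 : 0 ≤ M := (norm_nonneg _).trans (hM 0)
  have hm2 : 0 < 2 * m := by linarith
  have hm4 : 0 < 4 * m - 4 := by linarith
  set K : ℝ≥0∞ := ENNReal.ofReal (4 * Real.pi ^ (2 * m) * C ^ (2 * m)) with hK
  have hKt : K ≠ ∞ := ENNReal.ofReal_ne_top
  have hFkm : ∀ k, Measurable (Fk F k) := fun k => (contDiff_Fk hFm hM k).continuous.measurable
  have hPk : ∀ k, ∫⁻ x, ‖∫ u, Fk F k u * ex x u‖ₑ ^ (2 * m) ≤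
      K * ∫⁻ u, ‖Fk F k u‖ₑ ^ (2 * m) * ‖u‖ₑ ^ (4 * m - 4) := fun k =>
    hP (Fk F k) (contDiff_Fk hFm hM k) (compactSupp hR k) (zero_notMem hR k)
  have hae := ae_lim hFm hM
  -- the right side
  have hR1 : Tendsto (fun k => ∫⁻ u, ‖Fk F k u‖ₑ ^ (2 * m) * ‖u‖ₑ ^ (4 * m - 4)) atTop
      (𝓝 (∫⁻ u, ‖F u‖ₑ ^ (2 * m) * ‖u‖ₑ ^ (4 * m - 4))) := by
    refine tendsto_lintegral_of_dominated_convergence
      ((Metric.closedBall (0 : ℂ) (R + 1)).indicator
        (fun _ => ENNReal.ofReal M ^ (2 * m) * ENNReal.ofReal (R + 1) ^ (4 * m - 4))) ?_ ?_ ?_ ?_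
    · intro k
      exact ((hFkm k).enorm.pow_const _).mul (measurable_enorm.pow_const _)
    · intro k
      refine Eventually.of_forall fun u => ?_
      by_cases hu : Fk F k u = 0
      · simp only [hu, enorm_zero, ENNReal.zero_rpow_of_pos hm2, zero_mul]
        exact bot_le
      · have hu1 := (Fk_supp hR k u hu).2
        rw [Set.indicator_of_mem (by rwa [mem_closedBall_zero_iff])]
        have e1 : ‖Fk F k u‖ₑ ≤ ENNReal.ofReal M := by
          rw [← ofReal_norm]
          exact ENNReal.ofReal_le_ofReal (norm_Fk_le hM k u)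
        have e2 : ‖u‖ₑ ≤ ENNReal.ofReal (R + 1) := by
          rw [← ofReal_norm]
          exact ENNReal.ofReal_le_ofReal hu1
        exact mul_le_mul' (ENNReal.rpow_le_rpow e1 hm2.le) (ENNReal.rpow_le_rpow e2 hm4.le)
    · rw [lintegral_indicator Metric.isClosed_closedBall.measurableSet, setLIntegral_const]
      refine ENNReal.mul_ne_top (ENNReal.mul_ne_top ?_ ?_) ?_
      · exact ENNReal.rpow_ne_top_of_nonneg hm2.le ENNReal.ofReal_ne_top
      · exact ENNReal.rpow_ne_top_of_nonneg hm4.le ENNReal.ofReal_ne_top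
      · exact (isCompact_closedBall (0 : ℂ) (R + 1)).measure_lt_top.ne
    · filter_upwards [hae] with u hu
      have h1 : Tendsto (fun k => ‖Fk F k u‖ₑ ^ (2 * m)) atTop (𝓝 (‖F u‖ₑ ^ (2 * m))) :=
        (ENNReal.continuous_rpow_const.tendsto _).comp ((continuous_enorm.tendsto _).comp hu)
      exact ENNReal.Tendsto.mul_const h1
        (Or.inr (ENNReal.rpow_ne_top_of_nonneg hm4.le enorm_ne_top))
  -- the left side
  have hL1 : ∀ x, Tendsto (fun k => ‖∫ u, Fk F k u * ex x u‖ₑ ^ (2 * m)) atTop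
      (𝓝 (‖∫ u, F u * ex x u‖ₑ ^ (2 * m))) := by
    intro x
    have hx : Tendsto (fun k => ∫ u, Fk F k u * ex x u) atTop (𝓝 (∫ u, F u * ex x u)) := by
      refine tendsto_integral_of_dominated_convergence
        ((Metric.closedBall (0 : ℂ) (R + 1)).indicator (fun _ => M)) ?_ ?_ ?_ ?_
      · intro k
        refine ((hFkm k).mul ?_).aestronglyMeasurable
        exact meas_ex.comp measurable_prodMk_left
      · rw [integrable_indicator_iff Metric.isClosed_closedBall.measurableSet]
        exact integrableOn_const (isCompact_closedBall (0 : ℂ) (R + 1)).measure_lt_top.ne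
      · intro k
        refine Eventually.of_forall fun u => ?_
        rw [norm_mul, norm_ex, mul_one]
        by_cases hu : Fk F k u = 0
        · rw [hu, norm_zero]
          exact Set.indicator_nonneg (fun _ _ => hM0) u
        · have hu1 := (Fk_supp hR k u hu).2
          rw [Set.indicator_of_mem (by rwa [mem_closedBall_zero_iff])]
          exact norm_Fk_le hM k u
      · filter_upwards [hae] with u hu
        exact hu.mul_const _
    exact (ENNReal.continuous_rpow_const.tendsto _).comp ((continuous_enorm.tendsto _).comp hx)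
  have hmeas : ∀ k, Measurable fun x => ‖∫ u, Fk F k u * ex x u‖ₑ ^ (2 * m) := by
    intro k
    have h1 : StronglyMeasurable (Function.uncurry fun (x u : ℂ) => Fk F k u * ex x u) := by
      refine Measurable.stronglyMeasurable ?_
      exact ((hFkm k).comp measurable_snd).mul meas_ex
    have h2 := h1.integral_prod_right (ν := (volume : Measure ℂ))
    exact (h2.measurable.enorm.pow_const _)
  calc ∫⁻ x, ‖∫ u, F u * ex x u‖ₑ ^ (2 * m)
      = ∫⁻ x, liminf (fun k => ‖∫ u, Fk F k u * ex x u‖ₑ ^ (2 * m)) atTop := by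
        refine lintegral_congr fun x => ?_
        exact (hL1 x).liminf_eq.symm
    _ ≤ liminf (fun k => ∫⁻ x, ‖∫ u, Fk F k u * ex x u‖ₑ ^ (2 * m)) atTop :=
        lintegral_liminf_le hmeas
    _ ≤ liminf (fun k => K * ∫⁻ u, ‖Fk F k u‖ₑ ^ (2 * m) * ‖u‖ₑ ^ (4 * m - 4)) atTop :=
        liminf_le_liminf (Eventually.of_forall hPk)
    _ = K * ∫⁻ u, ‖F u‖ₑ ^ (2 * m) * ‖u‖ₑ ^ (4 * m - 4) :=
        (ENNReal.Tendsto.const_mul hR1 (Or.inr hKt)).liminf_eq

end Pool.Agent.H78.PB.DEN
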