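import Mathlib
import Pool.Agent.H78.PB.Stm6
import Pool.Agent.N892.BW.PAL_cov
import Pool.Agent.N892.BW.CELL
import Pool.Agent.N892.BW.LIN
import Pool.Agent.N892.BW.KER
import Pool.Agent.N892.BW.RTT_A

/-! Project PB, part D, stub FOC: focusing waves. -/

set_option autoImplicit false

open MeasureTheory ENNReal Filter Topology Complex
open scoped ComplexConjugate ContDiff

namespace Pool.Agent.H78.PB.FOC

open Pool.Agent.N892.BW Pool.Agent.N892.BW.PAL

/-- the wave focusing at the origin -/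
noncomputable def wv (F : ℂ → ℂ) (n : ℕ) (w : ℂ) : ℂ :=
  ((4 * Real.pi ^ 2 : ℝ) : ℂ) * conj (Kn n w) * F (iv n w)

theorem ker_iv {n : ℕ} (hn : 1 ≤ n) {v : ℂ} (hv : v ≠ 0) :
    ker n (iv n v) = ‖v‖ ^ 2 / (4 * Real.pi * n) := by
  unfold Pool.Agent.N892.BW.ker
  rw [norm_iv]
  have h1 : (0 : ℝ) < n := by exact_mod_cast hn
  have h2 : 0 < ‖v‖ := norm_pos_iff.2 hv
  have h3 := Real.pi_pos
  field_simp
  ring

theorem norm_wv {F : ℂ → ℂ} {n : ℕ} (hn : 1 ≤ n) (w : ℂ) :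
    ‖wv F n w‖ = 4 * Real.pi ^ 2 * ker n w * ‖F (iv n w)‖ := by
  unfold wv
  rw [norm_mul, norm_mul, RCLike.norm_conj, CELL.norm_Kn n hn, Complex.norm_real,
    Real.norm_of_nonneg (by positivity)]

theorem supp {F : ℂ → ℂ} (hF : HasCompactSupport F) (h0 : (0 : ℂ) ∉ tsupport F) :
    ∃ R δ : ℝ, 0 < R ∧ 0 < δ ∧ (∀ u, R < ‖u‖ → F u = 0) ∧ ∀ u, ‖u‖ < δ → F u = 0 := by
  obtain ⟨R, hR⟩ := hF.isBounded.exists_norm_le
  obtain ⟨δ, hδ, hball⟩ : ∃ δ > 0, Metric.ball (0 : ℂ) δ ⊆ (tsupport F)ᶜ :=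
    Metric.isOpen_iff.1 (isClosed_tsupport F).isOpen_compl 0 h0
  refine ⟨max R 1, δ, by positivity, hδ, fun u hu => ?_, fun u hu => ?_⟩
  · by_contra hne
    have := hR u (subset_tsupport _ hne)
    have := le_max_left R 1
    linarith
  · by_contra hne
    exact hball (by simpa using hu) (subset_tsupport _ hne)

theorem wv_small {F : ℂ → ℂ} {R : ℝ} (hR0 : 0 < R) (hR : ∀ u, R < ‖u‖ → F u = 0) {n : ℕ} (hn : 1 ≤ n)
    {w : ℂ} (hw : ‖w‖ < 2 * n / R) : wv F n w = 0 := by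
  rcases eq_or_ne w 0 with rfl | h0
  · unfold wv Kn
    simp
  · have : F (iv n w) = 0 := by
      apply hR
      rw [norm_iv]
      have h2 : 0 < ‖w‖ := norm_pos_iff.2 h0
      rw [lt_div_iff₀ hR0] at hw
      rw [lt_div_iff₀ h2]
      linarith
    unfold wv
    rw [this, mul_zero]

theorem wv_large {F : ℂ → ℂ} {δ : ℝ} (hδ0 : 0 < δ) (hδ : ∀ u, ‖u‖ < δ → F u = 0) {n : ℕ} (hn : 1 ≤ n)
    {w : ℂ} (hw : 2 * n / δ < ‖w‖) : wv F n w = 0 := by
  have h2 : 0 < ‖w‖ := lt_of_le_of_lt (by positivity) hw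
  have : F (iv n w) = 0 := by
    apply hδ
    rw [norm_iv]
    rw [div_lt_iff₀ hδ0] at hw
    rw [div_lt_iff₀ h2]
    linarith
  unfold wv
  rw [this, mul_zero]

theorem wv_cs {F : ℂ → ℂ} {δ : ℝ} (hδ0 : 0 < δ) (hδ : ∀ u, ‖u‖ < δ → F u = 0) {n : ℕ} (hn : 1 ≤ n) :
    HasCompactSupport (wv F n) := by
  refine HasCompactSupport.intro (isCompact_closedBall (0 : ℂ) (2 * n / δ)) fun w hw => ?_
  apply wv_large hδ0 hδ hn
  simpa using hw

theorem Kn_smooth (n : ℕ) {w : ℂ} (hw : w ≠ 0) : ContDiffAt ℝ ∞ (Kn n) w := by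
  unfold Kn
  have h1 : ContDiffAt ℝ ∞ (fun x : ℂ => conj x) w := Complex.conjCLE.contDiff.contDiffAt
  have h2 : ContDiffAt ℝ ∞ (fun x : ℂ => x) w := contDiffAt_id
  simp only [div_eq_mul_inv]
  exact ((contDiffAt_const.mul (h1.pow _))).mul ((h2.pow _).inv (pow_ne_zero _ hw))

theorem iv_smooth (n : ℕ) {w : ℂ} (hw : w ≠ 0) : ContDiffAt ℝ ∞ (iv n) w := by
  unfold iv
  have h1 : ContDiffAt ℝ ∞ (fun x : ℂ => conj x) w := Complex.conjCLE.contDiff.contDiffAt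
  simp only [div_eq_mul_inv]
  exact contDiffAt_const.mul (h1.inv (by simpa using hw))

theorem wv_smooth {F : ℂ → ℂ} (hF : ContDiff ℝ ∞ F) {R : ℝ} (hR0 : 0 < R)
    (hR : ∀ u, R < ‖u‖ → F u = 0) {n : ℕ} (hn : 1 ≤ n) : ContDiff ℝ ∞ (wv F n) := by
  rw [contDiff_iff_contDiffAt]
  intro w
  rcases eq_or_ne w 0 with rfl | h0
  · have hn' : (0 : ℝ) < n := by exact_mod_cast hn
    have : wv F n =ᶠ[𝓝 0] fun _ => 0 := by
      filter_upwards [Metric.ball_mem_nhds (0 : ℂ) (by positivity : 0 < 2 * n / R)] with x hx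
      exact wv_small hR0 hR hn (by simpa using hx)
    exact contDiffAt_const.congr_of_eventuallyEq this
  · unfold wv
    have h1 : ContDiffAt ℝ ∞ (fun x : ℂ => conj (Kn n x)) w :=
      (Complex.conjCLE.contDiff.contDiffAt (x := Kn n w)).comp w (Kn_smooth n h0)
    have h2 : ContDiffAt ℝ ∞ (fun x : ℂ => F (iv n x)) w :=
      (hF.contDiffAt (x := iv n w)).comp w (iv_smooth n h0)
    exact (contDiffAt_const.mul h1).mul h2

/-- the wave as a Schwartz function -/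
noncomputable def wS (F : ℂ → ℂ) (hF : ContDiff ℝ ∞ F) (R δ : ℝ) (hR0 : 0 < R) (hδ0 : 0 < δ)
    (hR : ∀ u, R < ‖u‖ → F u = 0) (hδ : ∀ u, ‖u‖ < δ → F u = 0) (n : ℕ) (hn : 1 ≤ n) :
    SchwartzMap ℂ ℂ := (wv_cs hδ0 hδ hn).toSchwartzMap (wv_smooth hF hR0 hR hn)

/-- the norm of the wave -/
theorem norm_int {F : ℂ → ℂ} {m : ℝ} (hm : 1 < m) (h0 : F 0 = 0) {n : ℕ} (hn : 1 ≤ n) :
    ∫⁻ w, ‖wv F n w‖ₑ ^ (2 * m) = ENNReal.ofReal (4 * Real.pi ^ (2 * m) * (n : ℝ) ^ (2 - 2 * m)) *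
      ∫⁻ u, ‖F u‖ₑ ^ (2 * m) * ‖u‖ₑ ^ (4 * m - 4) := by
  have hn' : (0 : ℝ) < n := by exact_mod_cast hn
  have hpi := Real.pi_pos
  rw [cov n hn, ← lintegral_const_mul' _ _ ENNReal.ofReal_ne_top]
  refine lintegral_congr fun v => ?_
  rcases eq_or_ne v 0 with rfl | hv
  · rw [h0]
    simp only [enorm_zero]
    rw [ENNReal.zero_rpow_of_pos (by linarith)]
    simp
  · have hv' : 0 < ‖v‖ := norm_pos_iff.2 hv
    have e1 : ‖wv F n (iv n v)‖ₑ = ENNReal.ofReal (Real.pi * ‖v‖ ^ 2 / n) * ‖F v‖ₑ := by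
      rw [← ofReal_norm, norm_wv hn, iv_iv n hn, ker_iv hn hv,
        ENNReal.ofReal_mul (by positivity), ofReal_norm]
      congr 2
      field_simp
    rw [e1, ENNReal.mul_rpow_of_nonneg _ _ (by linarith : 0 ≤ 2 * m),
      ENNReal.ofReal_rpow_of_nonneg (by positivity) (by linarith), ← mul_assoc,
      ← ENNReal.ofReal_mul (by positivity)]
    have e2 : ‖v‖ₑ ^ (4 * m - 4) = ENNReal.ofReal (‖v‖ ^ (4 * m - 4)) := by
      rw [← ofReal_norm, ENNReal.ofReal_rpow_of_nonneg (by positivity) (by linarith)]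
    rw [e2]
    have e3 : (2 * (n : ℝ)) ^ 2 / ‖v‖ ^ 4 * (Real.pi * ‖v‖ ^ 2 / n) ^ (2 * m) =
        4 * Real.pi ^ (2 * m) * (n : ℝ) ^ (2 - 2 * m) * ‖v‖ ^ (4 * m - 4) := by
      rw [Real.div_rpow (by positivity) hn'.le, Real.mul_rpow hpi.le (by positivity),
        ← Real.rpow_natCast ‖v‖ 2, ← Real.rpow_natCast ‖v‖ 4, ← Real.rpow_mul hv'.le,
        Real.rpow_sub hn', Real.rpow_sub hv']
      have : (n : ℝ) ^ (2 : ℝ) = (n : ℝ) ^ 2 := by norm_cast
      rw [this]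
      have : ‖v‖ ^ ((2 : ℕ) * (2 * m) : ℝ) = ‖v‖ ^ (4 * m) := by
        congr 1
        push_cast
        ring
      rw [this]
      have h4 : ‖v‖ ^ ((4 : ℕ) : ℝ) = ‖v‖ ^ (4 : ℝ) := by norm_num
      rw [h4]
      have p1 : 0 < ‖v‖ ^ (4 : ℝ) := by positivity
      have p2 : 0 < (n : ℝ) ^ (2 * m) := by positivity
      field_simp
      ring
    rw [e3, ENNReal.ofReal_mul (by positivity)]
    ring

theorem Kn_sq {n : ℕ} (hn : 1 ≤ n) (w : ℂ) :
    Kn n w * conj (Kn n w) = ((ker n w ^ 2 : ℝ) : ℂ) := by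
  rw [Complex.mul_conj, Complex.normSq_eq_norm_sq, CELL.norm_Kn n hn]

theorem ker_sq {n : ℕ} (w : ℂ) :
    4 * Real.pi ^ 2 * ker n w ^ 2 = (2 * (n : ℝ)) ^ 2 / ‖w‖ ^ 4 := by
  unfold Pool.Agent.N892.BW.ker
  have hpi := Real.pi_pos
  rcases eq_or_ne w 0 with rfl | hw
  · simp
  · have : 0 < ‖w‖ := norm_pos_iff.2 hw
    field_simp
    ring

theorem Kn_neg {n : ℕ} (hn : 1 ≤ n) (w : ℂ) : Kn n (-w) = Kn n w := by
  unfold Kn
  obtain ⟨k, rfl⟩ : ∃ k, n = k + 1 := ⟨n - 1, by omega⟩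
  rw [map_neg, Nat.add_sub_cancel, neg_pow (conj w) k, neg_pow w (k + 1 + 1)]
  rcases eq_or_ne w 0 with rfl | hw
  · simp
  · have h1 : (-1 : ℂ) ^ k ≠ 0 := pow_ne_zero _ (by norm_num)
    rw [pow_succ (-1 : ℂ) (k + 1), pow_succ (-1 : ℂ) k]
    field_simp

theorem cont_F {F : ℂ → ℂ} (hF : ContDiff ℝ ∞ F) : Continuous F := hF.continuous

/-- pointwise convergence -/
theorem ptw {F : ℂ → ℂ} (hF : ContDiff ℝ ∞ F) (hc : HasCompactSupport F) {R δ : ℝ} (hR0 : 0 < R)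
    (hδ0 : 0 < δ) (hR : ∀ u, R < ‖u‖ → F u = 0) (hδ : ∀ u, ‖u‖ < δ → F u = 0) (z : ℂ) :
    ∃ (A : ℝ) (N : ℕ), ∀ (n : ℕ) (hn : 1 ≤ n), N ≤ n →
      ‖TS n (wS F hF R δ hR0 hδ0 hR hδ n hn) z - ∫ u, F u * ex z u‖ ≤ A / n := by
  have hFint : Integrable F := hF.continuous.integrable_of_hasCompactSupport hc
  refine ⟨100 * (R * ‖z‖ / 2 + R ^ 2 * ‖z‖ ^ 2 / 4) * ∫ u, ‖F u‖,
    ⌈2 * R * ‖z‖ + R ^ 2 * ‖z‖ ^ 2 / 4⌉₊ + 1, fun n hn hN => ?_⟩
  have hn' : (0 : ℝ) < n := by exact_mod_cast hn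
  have hpi := Real.pi_pos
  have hN1 : 2 * R * ‖z‖ + R ^ 2 * ‖z‖ ^ 2 / 4 ≤ (n : ℝ) := by
    refine (Nat.le_ceil _).trans ?_
    exact_mod_cast (by omega : ⌈2 * R * ‖z‖ + R ^ 2 * ‖z‖ ^ 2 / 4⌉₊ ≤ n)
  have ha : 2 * R * ‖z‖ ≤ n := by
    have : 0 ≤ R ^ 2 * ‖z‖ ^ 2 / 4 := by positivity
    linarith
  have hb : R ^ 2 * ‖z‖ ^ 2 / 4 ≤ n := by
    have : 0 ≤ 2 * R * ‖z‖ := by positivity
    linarith
  set f := wS F hF R δ hR0 hδ0 hR hδ n hn with hf
  have hfw : ∀ w, f w = wv F n w := fun w => rfl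
  -- `z` is off the support
  have hz : z ∉ tsupport f := by
    have hsub : Function.support f ⊆ {w : ℂ | 2 * n / R ≤ ‖w‖} := by
      intro w hw
      by_contra hlt
      simp only [Set.mem_ofPred_eq, not_le] at hlt
      exact hw (wv_small hR0 hR hn hlt)
    have hcl : tsupport f ⊆ {w : ℂ | 2 * n / R ≤ ‖w‖} :=
      closure_minimal hsub (isClosed_le continuous_const continuous_norm)
    intro hz
    have := hcl hz
    simp only [Set.mem_ofPred_eq] at this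
    rw [div_le_iff₀ hR0] at this
    nlinarith
  have hK : TS n f z = ∫ w, Kn n (z - w) * f w := KER.t n hn f z hz
  -- the main term
  have hM : ∫ u, F u * ex z u = ∫ w, Kn n w * ex z (iv n w) * f w := by
    rw [cov2 n hn (fun u => F u * ex z u)]
    refine integral_congr_ae (Eventually.of_forall fun w => ?_)
    simp only
    rw [hfw, wv, ← ker_sq w]
    have := Kn_sq hn w
    calc (((4 * Real.pi ^ 2 * ker n w ^ 2 : ℝ)) : ℂ) * (F (iv n w) * ex z (iv n w))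
        = ((4 * Real.pi ^ 2 : ℝ) : ℂ) * ((ker n w ^ 2 : ℝ) : ℂ) * (F (iv n w) * ex z (iv n w)) := by
          push_cast; ring
      _ = _ := by rw [← this]; ring
  have hfc : Continuous (fun w => f w) := f.continuous
  have hfi : HasCompactSupport (fun w => f w) := wv_cs hδ0 hδ hn
  -- integrability
  have hmK : Measurable (Kn n) := CELL.meas_Kn n
  -- pointwise bound of the difference
  have hsmall : ∀ w, ‖w‖ < 2 * n / R → f w = 0 := fun w hw => wv_small hR0 hR hn hw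
  have hlarge : ∀ w, 2 * n / δ < ‖w‖ → f w = 0 := fun w hw => wv_large hδ0 hδ hn hw
  have hbd : ∀ w, ‖(Kn n (z - w) - Kn n w * ex z (iv n w)) * f w‖ ≤
      100 * (R * ‖z‖ / 2 + R ^ 2 * ‖z‖ ^ 2 / 4) / n * ((2 * (n : ℝ)) ^ 2 / ‖w‖ ^ 4 * ‖F (iv n w)‖) := by
    intro w
    rcases lt_or_ge ‖w‖ (2 * n / R) with h | h
    · rw [hsmall w h, mul_zero, norm_zero]
      positivity
    · have hwp : 0 < ‖w‖ := lt_of_lt_of_le (by positivity) h
      have hw0 : w ≠ 0 := norm_pos_iff.1 hwp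
      have hq : ‖z‖ / ‖w‖ ≤ R * ‖z‖ / (2 * n) := by
        rw [div_le_div_iff₀ hwp (by positivity)]
        rw [div_le_iff₀ hR0] at h
        nlinarith [norm_nonneg z]
      have h1 : ‖z‖ ≤ ‖w‖ / 4 := by
        rw [div_le_iff₀ hR0] at h
        have : 4 * ‖z‖ * R ≤ ‖w‖ * R := by nlinarith
        have := le_of_mul_le_mul_right this hR0
        linarith
      have h2 : (n : ℝ) * ‖z‖ ^ 2 ≤ ‖w‖ ^ 2 := by
        rw [div_le_iff₀ hR0] at h
        have h3 : (2 * (n : ℝ)) ^ 2 ≤ (‖w‖ * R) ^ 2 := by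
          apply pow_le_pow_left₀ (by positivity) h
        have h4 : (n : ℝ) * ‖z‖ ^ 2 * R ^ 2 ≤ ‖w‖ ^ 2 * R ^ 2 := by nlinarith
        exact le_of_mul_le_mul_right h4 (by positivity)
      have h3 := LIN.t n hn w z hw0 h1 h2
      have h4 : Kn n (z - w) = Kn n (w - z) := by
        rw [← Kn_neg hn (w - z), neg_sub]
      rw [norm_mul, h4, hfw, norm_wv hn]
      have hk := CELL.ker_nonneg n w
      have h5 : 100 * ker n w * (‖z‖ / ‖w‖ + n * (‖z‖ / ‖w‖) ^ 2) ≤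
          100 * ker n w * ((R * ‖z‖ / 2 + R ^ 2 * ‖z‖ ^ 2 / 4) / n) := by
        have h6 : ‖z‖ / ‖w‖ + n * (‖z‖ / ‖w‖) ^ 2 ≤ (R * ‖z‖ / 2 + R ^ 2 * ‖z‖ ^ 2 / 4) / n := by
          have h7 : (‖z‖ / ‖w‖) ^ 2 ≤ (R * ‖z‖ / (2 * n)) ^ 2 :=
            pow_le_pow_left₀ (by positivity) hq 2
          have h8 : (R * ‖z‖ / 2 + R ^ 2 * ‖z‖ ^ 2 / 4) / n =
              R * ‖z‖ / (2 * n) + n * (R * ‖z‖ / (2 * n)) ^ 2 := by
            field_simp
            ring
          rw [h8]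
          gcongr
        gcongr
      calc ‖Kn n (w - z) - Kn n w * ex z (iv n w)‖ * (4 * Real.pi ^ 2 * ker n w * ‖F (iv n w)‖)
          ≤ (100 * ker n w * ((R * ‖z‖ / 2 + R ^ 2 * ‖z‖ ^ 2 / 4) / n)) *
              (4 * Real.pi ^ 2 * ker n w * ‖F (iv n w)‖) := by
            gcongr
            exact h3.trans h5
        _ = 100 * (R * ‖z‖ / 2 + R ^ 2 * ‖z‖ ^ 2 / 4) / n *
              ((4 * Real.pi ^ 2 * ker n w ^ 2) * ‖F (iv n w)‖) := by ring
        _ = _ := by rw [ker_sq]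
  -- integrals
  have hI0 : ∫ w, (2 * (n : ℝ)) ^ 2 / ‖w‖ ^ 4 * ‖F (iv n w)‖ = ∫ u, ‖F u‖ := by
    have h := cov2 n hn (fun u => ((‖F u‖ : ℝ) : ℂ))
    have h' : ((∫ u, ‖F u‖ : ℝ) : ℂ) = ((∫ w, (2 * (n : ℝ)) ^ 2 / ‖w‖ ^ 4 * ‖F (iv n w)‖ : ℝ) : ℂ) := by
      rw [← integral_complex_ofReal, ← integral_complex_ofReal]
      rw [h]
      refine integral_congr_ae (Eventually.of_forall fun w => ?_)
      simp only
      push_cast
      ring
    exact_mod_cast h'.symm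
  have hcF : Continuous F := hF.continuous
  have hivm : Measurable (iv n) := iv_meas n
  have hI1 : Integrable fun w : ℂ => (2 * (n : ℝ)) ^ 2 / ‖w‖ ^ 4 * ‖F (iv n w)‖ := by
    -- bounded with bounded support off a neighbourhood of zero
    obtain ⟨M, hMb⟩ := hc.exists_bound_of_continuous hcF
    refine Integrable.mono' (g := fun w : ℂ => (Metric.closedBall (0 : ℂ) (2 * n / δ)).indicator
      (fun _ => (2 * (n : ℝ)) ^ 2 / (2 * n / R) ^ 4 * M) w) ?_ ?_ ?_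
    · refine (integrable_indicator_iff measurableSet_closedBall).2 ?_
      exact integrableOn_const (by
        have := (isCompact_closedBall (0 : ℂ) (2 * n / δ)).measure_lt_top (μ := volume)
        exact this.ne)
    · exact ((measurable_const.div (measurable_norm.pow_const 4)).mul
        ((hcF.measurable.comp hivm).norm)).aestronglyMeasurable
    · refine Eventually.of_forall fun w => ?_
      rw [Real.norm_of_nonneg (by positivity)]
      have hM0 : 0 ≤ M := (norm_nonneg _).trans (hMb 0)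
      by_cases hw : w ∈ Metric.closedBall (0 : ℂ) (2 * n / δ)
      · rw [Set.indicator_of_mem hw]
        rcases lt_or_ge ‖w‖ (2 * n / R) with h | h
        · rcases eq_or_ne w 0 with rfl | h0
          · have h9 : (2 * (n : ℝ)) ^ 2 / ‖(0 : ℂ)‖ ^ 4 * ‖F (iv n 0)‖ = 0 := by simp
            rw [h9]
            positivity
          · have : F (iv n w) = 0 := by
              apply hR
              rw [norm_iv]
              have h2 : 0 < ‖w‖ := norm_pos_iff.2 h0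
              rw [lt_div_iff₀ hR0] at h
              rw [lt_div_iff₀ h2]
              linarith
            rw [this, norm_zero, mul_zero]
            positivity
        · have hwp : 0 < ‖w‖ := lt_of_lt_of_le (by positivity) h
          gcongr
          exact hMb _
      · rw [Set.indicator_of_notMem hw]
        have : F (iv n w) = 0 := by
          simp only [Metric.mem_closedBall, dist_zero_right, not_le] at hw
          have h2 : 0 < ‖w‖ := lt_of_le_of_lt (by positivity) hw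
          apply hδ
          rw [norm_iv]
          rw [div_lt_iff₀ hδ0] at hw
          rw [div_lt_iff₀ h2]
          linarith
        rw [this, norm_zero, mul_zero]
  have hexm : Measurable fun w : ℂ => ex z (iv n w) := by
    unfold ex
    have h1 : Measurable fun w : ℂ => (z * conj (iv n w)).im :=
      Complex.measurable_im.comp ((measurable_const.mul (Complex.continuous_conj.measurable.comp hivm)))
    exact Complex.measurable_exp.comp (measurable_const.mul (Complex.measurable_ofReal.comp h1))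
  have hI2 : Integrable fun w => Kn n w * ex z (iv n w) * f w := by
    refine (hI1.mono' ?_ ?_)
    · exact ((hmK.mul hexm).aestronglyMeasurable).mul hfc.aestronglyMeasurable
    · refine Eventually.of_forall fun w => ?_
      rw [norm_mul, norm_mul, CELL.norm_ex, mul_one, CELL.norm_Kn n hn, hfw, norm_wv hn, ← ker_sq w]
      apply le_of_eq
      ring
  have hI3 : Integrable fun w => (Kn n (z - w) - Kn n w * ex z (iv n w)) * f w := by
    refine (hI1.const_mul (100 * (R * ‖z‖ / 2 + R ^ 2 * ‖z‖ ^ 2 / 4) / n)).mono' ?_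
      (Eventually.of_forall hbd)
    exact ((((hmK.comp (measurable_const.sub measurable_id)).sub (hmK.mul hexm))).aestronglyMeasurable).mul
      hfc.aestronglyMeasurable
  have hI4 : Integrable fun w => Kn n (z - w) * f w := by
    have := hI3.add hI2
    refine this.congr (Eventually.of_forall fun w => ?_)
    simp only [Pi.add_apply]
    ring
  rw [hK, hM, ← integral_sub hI4 hI2]
  have e : ∀ w, Kn n (z - w) * f w - Kn n w * ex z (iv n w) * f w =
      (Kn n (z - w) - Kn n w * ex z (iv n w)) * f w := fun w => by ring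
  simp_rw [e]
  refine (norm_integral_le_of_norm_le (hI1.const_mul _) (Eventually.of_forall hbd)).trans ?_
  rw [integral_const_mul, hI0]
  apply le_of_eq
  ring

theorem t : E_FOC := by
  intro m C hm hC hfr F hF hc h0
  obtain ⟨R, δ, hR0, hδ0, hR, hδ⟩ := supp hc h0
  have hfr' : ∃ᶠ n : ℕ in atTop, (1 ≤ n ∧ Tb m C n) :=
    (hfr.and_eventually (eventually_ge_atTop 1)).mono fun n h => ⟨h.2, h.1⟩
  obtain ⟨φ, hφ, hφ'⟩ := extraction_of_frequently_atTop hfr'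
  set g : ℕ → SchwartzMap ℂ ℂ := fun k => wS F hF R δ hR0 hδ0 hR hδ (φ k) (hφ' k).1 with hg
  have hF0 : F 0 = 0 := hδ 0 (by simpa using hδ0)
  have h2m : (0 : ℝ) < 2 * m := by linarith
  -- bound for each `k`
  have hk : ∀ k, ∫⁻ z, ‖TS (φ k) (g k) z‖ₑ ^ (2 * m) ≤
      ENNReal.ofReal (4 * Real.pi ^ (2 * m) * C ^ (2 * m)) *
        ∫⁻ u, ‖F u‖ₑ ^ (2 * m) * ‖u‖ₑ ^ (4 * m - 4) := by
    intro k
    have hn : 1 ≤ φ k := (hφ' k).1
    have hn' : (0 : ℝ) < φ k := by exact_mod_cast hn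
    have h := (hφ' k).2 (g k)
    rw [eLpNorm_eq_lintegral_rpow_enorm_toReal (by simpa using h2m) ENNReal.ofReal_ne_top,
      eLpNorm_eq_lintegral_rpow_enorm_toReal (by simpa using h2m) ENNReal.ofReal_ne_top,
      ENNReal.toReal_ofReal h2m.le] at h
    have h' := ENNReal.rpow_le_rpow h h2m.le
    rw [ENNReal.mul_rpow_of_nonneg _ _ h2m.le, ← ENNReal.rpow_mul, ← ENNReal.rpow_mul,
      one_div_mul_cancel h2m.ne', ENNReal.rpow_one, ENNReal.rpow_one] at h'
    refine h'.trans (le_of_eq ?_)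
    have e1 : ∫⁻ w, ‖g k w‖ₑ ^ (2 * m) = ∫⁻ w, ‖wv F (φ k) w‖ₑ ^ (2 * m) := rfl
    rw [e1, norm_int hm hF0 hn, ← mul_assoc,
      ENNReal.ofReal_rpow_of_nonneg (by positivity) h2m.le, ← ENNReal.ofReal_mul (by positivity)]
    congr 2
    rw [Real.mul_rpow hC.le (by positivity), ← Real.rpow_mul hn'.le]
    have e2 : (1 - 1 / m) * (2 * m) = 2 * m - 2 := by
      have : m ≠ 0 := by linarith
      field_simp
    rw [e2]
    have e3 : ((φ k : ℕ) : ℝ) ^ (2 * m - 2) * ((φ k : ℕ) : ℝ) ^ (2 - 2 * m) = 1 := by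
      rw [← Real.rpow_add hn']
      have : 2 * m - 2 + (2 - 2 * m) = 0 := by ring
      rw [this, Real.rpow_zero]
    calc C ^ (2 * m) * ((φ k : ℕ) : ℝ) ^ (2 * m - 2) * (4 * Real.pi ^ (2 * m) * ((φ k : ℕ) : ℝ) ^ (2 - 2 * m))
        = 4 * Real.pi ^ (2 * m) * C ^ (2 * m) *
          (((φ k : ℕ) : ℝ) ^ (2 * m - 2) * ((φ k : ℕ) : ℝ) ^ (2 - 2 * m)) := by ring
      _ = _ := by rw [e3, mul_one]
  -- pointwise convergence
  have hlim : ∀ z, Tendsto (fun k => TS (φ k) (g k) z) atTop (𝓝 (∫ u, F u * ex z u)) := by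
    intro z
    obtain ⟨A, N, hA⟩ := ptw hF hc hR0 hδ0 hR hδ z
    rw [tendsto_iff_norm_sub_tendsto_zero]
    have h1 : Tendsto (fun k => A / (φ k : ℝ)) atTop (𝓝 0) :=
      (tendsto_const_div_atTop_nhds_zero_nat A).comp hφ.tendsto_atTop
    refine squeeze_zero' (Eventually.of_forall fun k => norm_nonneg _) ?_ h1
    filter_upwards [hφ.tendsto_atTop.eventually_ge_atTop N] with k hk
    exact hA (φ k) (hφ' k).1 hk
  have hlim2 : ∀ z, Tendsto (fun k => ‖TS (φ k) (g k) z‖ₑ ^ (2 * m)) atTop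
      (𝓝 (‖∫ u, F u * ex z u‖ₑ ^ (2 * m))) := by
    intro z
    exact ((ENNReal.continuous_rpow_const.tendsto _).comp ((hlim z).enorm))
  have hmeas : ∀ k, Measurable fun z => ‖TS (φ k) (g k) z‖ₑ ^ (2 * m) := by
    intro k
    exact ((RTT.TS_cont (φ k) (g k)).enorm.measurable).pow_const _
  unfold Pt
  calc ∫⁻ x, ‖∫ u, F u * ex x u‖ₑ ^ (2 * m)
      = ∫⁻ x, liminf (fun k => ‖TS (φ k) (g k) x‖ₑ ^ (2 * m)) atTop := by
        refine lintegral_congr fun x => ?_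
        exact (hlim2 x).liminf_eq.symm
    _ ≤ liminf (fun k => ∫⁻ x, ‖TS (φ k) (g k) x‖ₑ ^ (2 * m)) atTop := lintegral_liminf_le hmeas
    _ ≤ _ := by
        refine liminf_le_of_frequently_le (Frequently.of_forall hk) ?_
        isBoundedDefault

end Pool.Agent.H78.PB.FOC
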