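import Mathlib
import Pool.Agent.H78.PB.Stm6

/-! Project PB, part D: Pitt's inequality in terms of the usual Fourier transform. -/

set_option autoImplicit false

open MeasureTheory ENNReal Filter Topology Complex
open scoped ComplexConjugate

namespace Pool.Agent.H78.PB.FOU

open Pool.Agent.N892.BW

/-- the Fourier transform -/
noncomputable def Fr (F : ℂ → ℂ) (ξ : ℂ) : ℂ :=
  ∫ w : ℂ, Complex.exp (-(2 * (Real.pi : ℂ) * Complex.I *
    ((w.re * ξ.re + w.im * ξ.im : ℝ) : ℂ))) * F w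

/-- the inequality with the usual Fourier transform -/
def PF (p C : ℝ) : Prop := ∀ F : ℂ → ℂ, Nice F →
  ∫⁻ ξ, ‖Fr F ξ‖ₑ ^ p ≤ ENNReal.ofReal (C ^ p) * ∫⁻ u, ‖F u‖ₑ ^ p * ‖u‖ₑ ^ (2 * p - 4)

theorem Fr_eq (F : ℂ → ℂ) (ξ : ℂ) : Fr F ξ = ∫ u, F u * ex (-(2 * Real.pi * Complex.I) * ξ) u := by
  unfold Fr
  refine integral_congr_ae (Eventually.of_forall fun u => ?_)
  simp only
  rw [mul_comm]
  congr 1
  unfold ex
  congr 1
  have : ((-(2 * (Real.pi : ℂ) * Complex.I) * ξ * conj u).im : ℝ) =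
      -(2 * Real.pi) * (u.re * ξ.re + u.im * ξ.im) := by
    have h1 : -(2 * (Real.pi : ℂ) * Complex.I) * ξ * conj u =
        ((-(2 * Real.pi) : ℝ) : ℂ) * (Complex.I * (ξ * conj u)) := by
      push_cast; ring
    rw [h1, Complex.im_ofReal_mul, Complex.I_mul_im, Complex.mul_re, Complex.conj_re, Complex.conj_im]
    ring
  rw [this]
  push_cast
  ring

theorem scale (g : ℂ → ℝ≥0∞) (hg : Measurable g) :
    ∫⁻ ξ, g (-(2 * Real.pi * Complex.I) * ξ) =
      ENNReal.ofReal (1 / (4 * Real.pi ^ 2)) * ∫⁻ x, g x := by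
  have hpi := Real.pi_pos
  set c : ℂ := -(2 * (Real.pi : ℂ) * Complex.I) with hc
  have hcn : ‖c‖ = 2 * Real.pi := by
    rw [hc]
    simp [abs_of_pos hpi]
  have hc0 : c ≠ 0 := by
    rw [← norm_pos_iff, hcn]; positivity
  -- the linear map of multiplication by `c`
  let L : ℂ →ₗ[ℝ] ℂ := Algebra.lmul ℝ ℂ c
  have hdet : LinearMap.det L = ‖c‖ ^ 2 := by
    change LinearMap.det (Algebra.lmul ℝ ℂ c) = _
    rw [← Algebra.norm_apply, Algebra.norm_complex_apply, normSq_eq_norm_sq]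
  have hdet0 : LinearMap.det L ≠ 0 := by
    rw [hdet, hcn]; positivity
  have hmap := Measure.map_linearMap_addHaar_eq_smul_addHaar (μ := (volume : Measure ℂ)) hdet0
  have h1 : ∫⁻ x, g x ∂(Measure.map L volume) = ∫⁻ ξ, g (c * ξ) := by
    rw [lintegral_map hg]
    · rfl
    · exact (L.continuous_of_finiteDimensional).measurable
  rw [← h1, hmap, lintegral_smul_measure, hdet, hcn]
  congr 2
  rw [abs_of_pos (by positivity)]
  field_simp
  ring

theorem Pt_meas {F : ℂ → ℂ} (hF : Nice F) : Measurable fun x => ∫ u, F u * ex x u := by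
  have h1 : Measurable (Function.uncurry fun (x u : ℂ) => F u * ex x u) := by
    unfold ex
    refine (hF.1.comp measurable_snd).mul ?_
    have h2 : Measurable fun a : ℂ × ℂ => (a.1 * conj a.2).im :=
      Complex.measurable_im.comp (measurable_fst.mul
        (Complex.continuous_conj.measurable.comp measurable_snd))
    exact Complex.measurable_exp.comp (measurable_const.mul (Complex.measurable_ofReal.comp h2))
  exact (h1.stronglyMeasurable.integral_prod_right).measurable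

theorem iff' {m G : ℝ} (hm : 1 < m) (hG : 0 ≤ G) :
    Pit m G ↔ PF (2 * m) (Real.pi ^ (1 - 1 / m) * G) := by
  have hpi := Real.pi_pos
  have key : ∀ F : ℂ → ℂ, Nice F → (∫⁻ ξ, ‖Fr F ξ‖ₑ ^ (2 * m)) =
      ENNReal.ofReal (1 / (4 * Real.pi ^ 2)) * ∫⁻ x, ‖∫ u, F u * ex x u‖ₑ ^ (2 * m) := by
    intro F hF
    rw [← scale _ ((Pt_meas hF).enorm.pow_const _)]
    refine lintegral_congr fun ξ => ?_
    rw [Fr_eq]
  have e1 : (Real.pi ^ (1 - 1 / m) * G) ^ (2 * m) = 1 / (4 * Real.pi ^ 2) *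
      (4 * Real.pi ^ (2 * m) * G ^ (2 * m)) := by
    rw [Real.mul_rpow (by positivity) hG, ← Real.rpow_mul hpi.le]
    have : (1 - 1 / m) * (2 * m) = 2 * m - 2 := by field_simp
    rw [this, Real.rpow_sub hpi]
    have : Real.pi ^ (2 : ℝ) = Real.pi ^ 2 := by norm_cast
    rw [this]
    field_simp
  have e2 : (2 * (2 * m) - 4 : ℝ) = 4 * m - 4 := by ring
  unfold Pit PF
  refine forall_congr' fun F => forall_congr' fun hF => ?_
  rw [key F hF, e1, e2, ENNReal.ofReal_mul (p := 1 / (4 * Real.pi ^ 2)) (by positivity),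
    mul_assoc (ENNReal.ofReal (1 / (4 * Real.pi ^ 2)))]
  have hc0 : ENNReal.ofReal (1 / (4 * Real.pi ^ 2)) ≠ 0 := by
    rw [Ne, ENNReal.ofReal_eq_zero, not_le]; positivity
  exact (ENNReal.mul_le_mul_iff_right hc0 ENNReal.ofReal_ne_top).symm

/-- the best constant in Pitt's inequality for the usual Fourier transform -/
noncomputable def PC (p : ℝ) : ℝ := sInf {C : ℝ | 0 ≤ C ∧ PF p C}

theorem PC_eq {m : ℝ} (hm : 1 < m) : PC (2 * m) = Real.pi ^ (1 - 1 / m) * GP m := by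
  have hpi := Real.pi_pos
  have h0 : (0 : ℝ) < Real.pi ^ (1 - 1 / m) := by positivity
  unfold PC GP
  have hs := Real.sInf_smul_of_nonneg h0.le {G : ℝ | 0 ≤ G ∧ Pit m G}
  rw [smul_eq_mul] at hs
  rw [← hs]
  congr 1
  ext C
  simp only [Set.mem_smul_set, Set.mem_ofPred_eq, smul_eq_mul]
  constructor
  · rintro ⟨h1, h2⟩
    refine ⟨C / Real.pi ^ (1 - 1 / m), ⟨by positivity, ?_⟩, by field_simp⟩
    rw [iff' hm (by positivity)]
    have : Real.pi ^ (1 - 1 / m) * (C / Real.pi ^ (1 - 1 / m)) = C := by field_simp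
    rwa [this]
  · rintro ⟨G, ⟨h1, h2⟩, rfl⟩
    exact ⟨by positivity, (iff' hm h1).1 h2⟩

end Pool.Agent.H78.PB.FOU
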