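import Mathlib
import Pool.Agent.H78.PB.Stm6

/-! Project PB, part D: the limit of `‖T ^ n‖_p / n ^ (1 - 2/p)`. -/

set_option autoImplicit false

open MeasureTheory ENNReal Filter Topology

namespace Pool.Agent.H78.PB.LIM

open Pool.Agent.N892.BW

/-- the admissible constants for `T ^ n` -/
def St (m : ℝ) (n : ℕ) : Set ℝ := {C : ℝ | 0 ≤ C ∧ ∀ f : SchwartzMap ℂ ℂ,
  eLpNorm (TS n f) (ENNReal.ofReal (2 * m)) volume ≤
    ENNReal.ofReal C * eLpNorm (fun z : ℂ => f z) (ENNReal.ofReal (2 * m)) volume}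

theorem St_bdd (m : ℝ) (n : ℕ) : BddBelow (St m n) := ⟨0, fun _ h => h.1⟩

theorem NT_eq (m : ℝ) (n : ℕ) : NT m n = sInf (St m n) := rfl

theorem NT_nonneg (m : ℝ) (n : ℕ) : 0 ≤ NT m n := by
  rw [NT_eq]
  exact Real.sInf_nonneg fun _ h => h.1

theorem Tb_mem {m C : ℝ} {n : ℕ} (hC : 0 ≤ C) (h : Tb m C n) : C * (n : ℝ) ^ (1 - 1 / m) ∈ St m n :=
  ⟨by positivity, h⟩

theorem Tb_of_lt {m C : ℝ} {n : ℕ} (hne : (St m n).Nonempty) (h : NT m n < C * (n : ℝ) ^ (1 - 1 / m)) :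
    Tb m C n := by
  rw [NT_eq] at h
  obtain ⟨C', hC', hlt⟩ := exists_lt_of_csInf_lt hne h
  intro f
  refine (hC'.2 f).trans ?_
  gcongr

/-- from Pitt's inequality to `T ^ n` -/
theorem up (hF : R_FUL) {m G C : ℝ} (hm : Rg m) (hG : 0 < G) (hP : Pit m G) (hC : G < C) :
    ∀ᶠ n : ℕ in atTop, Tb m C n := by
  have hε : 0 < C / G - 1 := by
    rw [sub_pos, lt_div_iff₀ hG]; linarith
  obtain ⟨n₀, h⟩ := hF m G (C / G - 1) hm hG hP hε
  filter_upwards [eventually_ge_atTop n₀] with n hn f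
  have h1 := h n hn f
  have e : (1 + (C / G - 1)) * Ar m G n = C * (n : ℝ) ^ (1 - 1 / m) := by
    unfold Ar
    field_simp
    ring
  rwa [e] at h1

/-- from `T ^ n` to Pitt's inequality -/
theorem down (h1 : E_FOC) (h2 : E_DEN) {m C : ℝ} (hm : Rg m) (hC : 0 < C)
    (h : ∃ᶠ n : ℕ in atTop, Tb m C n) : Pit m C := by
  have hm1 : 1 < m := by have := hm.1; linarith
  exact h2 m C hm1 hC (h1 m C hm1 hC h)

theorem Gs_pos {s : ℝ} (h0 : 0 < s) (h1 : s < 1) : 0 < Gs s := by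
  unfold Gs
  have a := Real.Gamma_pos_of_pos h0
  have b := Real.Gamma_pos_of_pos (show 0 < 1 - s by linarith)
  positivity

theorem Qn_pos {s : ℝ} (h0 : 0 < s) (h1 : s < 1) (n : ℕ) : 0 < Qn n s := by
  unfold Qn
  refine Finset.prod_pos fun j _ => ?_
  have : (0 : ℝ) ≤ j := Nat.cast_nonneg j
  apply div_pos <;> linarith

/-- lower bound for constants of `T ^ n` -/
theorem low (hL : S_LWB) (hA : S_ASR) {m C : ℝ} (hm : Rg m) (hC : 0 ≤ C)
    (h : ∃ᶠ n : ℕ in atTop, Tb m C n) : Gs (1 / (2 * m)) ≤ C := by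
  have hm1 : 11 / 10 ≤ m := hm.1
  have hs0 : (0 : ℝ) < 1 / (2 * m) := by positivity
  have hs1 : 1 / (2 * m) < 1 := by rw [div_lt_one (by linarith)]; linarith
  have hA' := hA (1 / (2 * m)) hs0 hs1
  have hg := Gs_pos hs0 hs1
  -- eventually `n ^ (1 - 2 s) Gs / Qn ≥ 1 - ε`, and frequently `Qn ≤ C n ^ (1 - 2 s)`
  by_contra hlt
  push Not at hlt
  -- `C / Gs < 1`
  have hr : C / Gs (1 / (2 * m)) < 1 := by rwa [div_lt_one hg]
  have hr' : ∃ r : ℝ, C / Gs (1 / (2 * m)) < r ∧ r < 1 := exists_between hr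
  obtain ⟨r, hr1, hr2⟩ := hr'
  have hr0 : 0 < 1 / r := by
    have : 0 ≤ C / Gs (1 / (2 * m)) := by positivity
    have : 0 < r := by linarith
    positivity
  have hrp : 0 < r := by
    have : 0 ≤ C / Gs (1 / (2 * m)) := by positivity
    linarith
  have hev : ∀ᶠ n : ℕ in atTop,
      (n : ℝ) ^ (1 - 2 * (1 / (2 * m))) * Gs (1 / (2 * m)) / Qn n (1 / (2 * m)) < 1 / r := by
    refine hA'.eventually_lt_const ?_
    rw [lt_div_iff₀ hrp]; linarith
  obtain ⟨n, hn, ⟨hn1, hn2⟩⟩ := (h.and_eventually (hev.and (eventually_ge_atTop 1))).exists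
  have hq := Qn_pos hs0 hs1 n
  have hQ : Qn n (1 / (2 * m)) ≤ C * (n : ℝ) ^ (1 - 1 / m) := by
    have := hL n (2 * m) (C * (n : ℝ) ^ (1 - 1 / m)) hn2 (by linarith) (by positivity) hn
    exact this
  have e : (1 : ℝ) - 2 * (1 / (2 * m)) = 1 - 1 / m := by
    field_simp
  rw [e, div_lt_div_iff₀ hq hrp] at hn1
  have hnp : (0 : ℝ) < (n : ℝ) ^ (1 - 1 / m) := by
    apply Real.rpow_pos_of_pos
    exact_mod_cast hn2
  rw [div_lt_iff₀ hg] at hr1
  nlinarith [mul_pos hnp hg, mul_lt_mul_of_pos_right hr1 hnp]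

theorem GP_bdd (m : ℝ) : BddBelow {G : ℝ | 0 ≤ G ∧ Pit m G} := ⟨0, fun _ h => h.1⟩

theorem GP_le {m G : ℝ} (hG : 0 ≤ G) (h : Pit m G) : GP m ≤ G := csInf_le (GP_bdd m) ⟨hG, h⟩

/-- bounds -/
theorem t_val (hF : R_FUL) (h1 : E_FOC) (h2 : E_DEN) (hL : S_LWB) (hA : S_ASR) (hC : C_CFI)
    (hM : ∀ P : ℝ, ∃ n₀ : ℕ, ∀ n : ℕ, n₀ ≤ n → ∀ p : ℝ, 2 ≤ p → p ≤ P →
      ∀ f : SchwartzMap ℂ ℂ,
        eLpNorm (TS n f) (ENNReal.ofReal p) volume ≤
          ENNReal.ofReal ((n : ℝ) ^ (1 - 2 / p) * (p - 1)) *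
            eLpNorm (fun z : ℂ => f z) (ENNReal.ofReal p) volume) : E_VAL := by
  intro m hm
  have hm1 : 11 / 10 ≤ m := hm.1
  have hm3 : m ≤ 3 := hm.2
  have hs0 : (0 : ℝ) < 1 / (2 * m) := by positivity
  have hs1 : 1 / (2 * m) < 1 := by rw [div_lt_one (by linarith)]; linarith
  have hg := Gs_pos hs0 hs1
  -- Pitt with constant `2 m - 1`
  have hP : Pit m (2 * m - 1) := by
    refine down h1 h2 hm (by linarith) (Eventually.frequently ?_)
    obtain ⟨n₀, h⟩ := hM 6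
    filter_upwards [eventually_ge_atTop n₀] with n hn f
    have := h n hn (2 * m) (by linarith) (by linarith) f
    have e : (n : ℝ) ^ (1 - 2 / (2 * m)) * (2 * m - 1) = (2 * m - 1) * (n : ℝ) ^ (1 - 1 / m) := by
      rw [mul_comm]
      congr 2
      field_simp
    rwa [e] at this
  refine ⟨?_, ?_, GP_le (by linarith) hP⟩
  · refine le_csInf ⟨2 * m - 1, by linarith, hP⟩ ?_
    rintro G ⟨hG0, hG⟩
    -- `Gs ≤ G`
    refine le_of_forall_pos_le_add fun ε hε => ?_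
    have hG' : Pit m (G + ε / 2) := by
      intro F hF'
      refine (hG F hF').trans ?_
      gcongr
      linarith
    exact low hL hA hm (by linarith) (up hF hm (by linarith) hG' (by linarith)).frequently
  · refine le_of_forall_pos_le_add fun ε hε => ?_
    refine GP_le (by positivity) (down h1 h2 hm (by positivity) (Eventually.frequently ?_))
    obtain ⟨n₀, h⟩ := hC
    have hA' := hA (1 / (2 * m)) hs0 hs1
    have hev : ∀ᶠ n : ℕ in atTop, (1005 / 1000 * Gs (1 / (2 * m))) / (1005 / 1000 * Gs (1 / (2 * m)) + ε) <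
        (n : ℝ) ^ (1 - 2 * (1 / (2 * m))) * Gs (1 / (2 * m)) / Qn n (1 / (2 * m)) := by
      refine hA'.eventually_const_lt ?_
      rw [div_lt_one (by positivity)]
      linarith
    filter_upwards [eventually_ge_atTop n₀, hev, eventually_ge_atTop 1] with n hn hn1 hn2 f
    refine (h n hn (2 * m) (by linarith) (by linarith) f).trans ?_
    have hq := Qn_pos hs0 hs1 n
    have e : (1 : ℝ) - 2 * (1 / (2 * m)) = 1 - 1 / m := by
      field_simp
    rw [e, div_lt_div_iff₀ (by positivity) hq] at hn1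
    have hQ : (1005 / 1000 * ∏ j ∈ Finset.range n, ((1 - 1 / (2 * m) + (j : ℝ)) / (1 / (2 * m) + j))) ≤
        (1005 / 1000 * Gs (1 / (2 * m)) + ε) * (n : ℝ) ^ (1 - 1 / m) := by
      change 1005 / 1000 * Qn n (1 / (2 * m)) ≤ _
      have := lt_of_mul_lt_mul_right (a := Gs (1 / (2 * m)))
        (b := 1005 / 1000 * Qn n (1 / (2 * m)))
        (c := (1005 / 1000 * Gs (1 / (2 * m)) + ε) * (n : ℝ) ^ (1 - 1 / m)) (by linarith) hg.le
      exact this.le
    gcongr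

/-- the limit -/
theorem t_lim (hF : R_FUL) (h1 : E_FOC) (h2 : E_DEN) (hV : E_VAL)
    (hP : ∀ m : ℝ, Rg m → ∃ G : ℝ, 0 < G ∧ Pit m G) : E_LIM := by
  intro m hm
  have hm1 : 11 / 10 ≤ m := hm.1
  have hs0 : (0 : ℝ) < 1 / (2 * m) := by positivity
  have hs1 : 1 / (2 * m) < 1 := by rw [div_lt_one (by linarith)]; linarith
  have hgp : 0 < GP m := lt_of_lt_of_le (Gs_pos hs0 hs1) (hV m hm).1
  have hne0 : {G : ℝ | 0 ≤ G ∧ Pit m G}.Nonempty := by
    obtain ⟨G, hG, hG'⟩ := hP m hm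
    exact ⟨G, hG.le, hG'⟩
  rw [tendsto_order]
  constructor
  · intro a ha
    by_contra hcon
    rw [not_eventually] at hcon
    -- a positive constant below `GP m` which is at least `a`
    obtain ⟨C, hC1, hC2⟩ := exists_between (max_lt ha hgp)
    have hC0 : 0 < C := lt_of_le_of_lt (le_max_right _ _) hC1
    have haC : a < C := lt_of_le_of_lt (le_max_left _ _) hC1
    obtain ⟨G, hG, hG'⟩ := hP m hm
    have hmem := up hF hm hG hG' (lt_add_one G)
    have hfr : ∃ᶠ n : ℕ in atTop, Tb m C n := by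
      refine (hcon.and_eventually (hmem.and (eventually_ge_atTop 1))).mono ?_
      rintro n ⟨hn, hn1, hn2⟩
      push Not at hn
      have hnp : (0 : ℝ) < (n : ℝ) ^ (1 - 1 / m) := by
        apply Real.rpow_pos_of_pos
        exact_mod_cast hn2
      refine Tb_of_lt ⟨_, Tb_mem (by linarith) hn1⟩ ?_
      have : NT m n / (n : ℝ) ^ (1 - 1 / m) < C := lt_of_le_of_lt hn haC
      rwa [div_lt_iff₀ hnp] at this
    have := GP_le hC0.le (down h1 h2 hm hC0 hfr)
    linarith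
  · intro b hb
    obtain ⟨G, ⟨hG0, hG⟩, hGb⟩ := exists_lt_of_csInf_lt hne0 hb
    have hgG : GP m ≤ G := GP_le hG0 hG
    obtain ⟨C, hC1, hC2⟩ := exists_between hGb
    filter_upwards [up hF hm (lt_of_lt_of_le hgp hgG) hG hC1, eventually_ge_atTop 1] with n hn hn2
    have hnp : (0 : ℝ) < (n : ℝ) ^ (1 - 1 / m) := by
      apply Real.rpow_pos_of_pos
      exact_mod_cast hn2
    rw [div_lt_iff₀ hnp]
    have h3 : NT m n ≤ C * (n : ℝ) ^ (1 - 1 / m) := by
      rw [NT_eq]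
      exact csInf_le (St_bdd m n) (Tb_mem (by linarith) hn)
    calc NT m n ≤ C * (n : ℝ) ^ (1 - 1 / m) := h3
      _ < b * (n : ℝ) ^ (1 - 1 / m) := by gcongr

end Pool.Agent.H78.PB.LIM
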